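import Pool.Agent.Helper87.HW.OT
import Pool.Agent.Helper67.HW.H
import Pool.Agent.Helper97.HW.A2
import Pool.Agent.Helper14.HW.N1b

/-! Block N2: one type of trees in its range. -/

open Finset

namespace HW

namespace N2

lemma ms_zero {w : ℕ → ℝ} {K : ℕ} (hw : IsLaw w K) : ms w K 0 = 1 := by
  simp [ms, hw.one]

lemma cont_ms (w : ℕ → ℝ) (K : ℕ) : Continuous (fun s => ms w K s) := by
  unfold ms
  fun_prop

lemma cont_Fs (w : ℕ → ℝ) (K : ℕ) : Continuous (fun s => Fs w K s) := by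
  unfold Fs
  fun_prop

/-- convexity of `soft x + u x`: its minimum is at `β` -/
lemma soft_min (θ b x β : ℝ) (hθ : 0 ≤ θ) (hb : 0 < b) :
    soft θ b β + θ / b * max (4 * b - β) 0 * β ≤
      soft θ b x + θ / b * max (4 * b - β) 0 * x := by
  unfold soft
  have key : 0 ≤ (max (4 * b - x) 0) ^ 2 / 2 - (max (4 * b - β) 0) ^ 2 / 2 +
      max (4 * b - β) 0 * (x - β) := by
    rcases le_total (4 * b - β) 0 with h | h
    · rw [max_eq_right h]
      nlinarith [sq_nonneg (max (4 * b - x) 0)]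
    · rw [max_eq_left h]
      have h1 : 4 * b - x ≤ max (4 * b - x) 0 := le_max_left _ _
      nlinarith [sq_nonneg (max (4 * b - x) 0 - (4 * b - β)), mul_nonneg h (sub_nonneg.2 h1)]
  have h0 : 0 ≤ θ / b := by positivity
  have h2 := mul_nonneg h0 key
  have e1 : ∀ y : ℝ, θ / (2 * b) * y ^ 2 = θ / b * (y ^ 2 / 2) := by
    intro y
    field_simp
  rw [e1, e1]
  nlinarith

lemma soft_upper (θ b x β : ℝ) (hθ : 0 ≤ θ) (hb : 0 < b) :
    soft θ b x + θ / b * max (4 * b - β) 0 * x ≤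
      soft θ b β + θ / b * max (4 * b - β) 0 * β + θ / (2 * b) * (x - β) ^ 2 := by
  unfold soft
  have key : (max (4 * b - x) 0) ^ 2 / 2 - (max (4 * b - β) 0) ^ 2 / 2 +
      max (4 * b - β) 0 * (x - β) ≤ (x - β) ^ 2 / 2 := by
    rcases le_total (4 * b - β) 0 with h | h
    · rw [max_eq_right h]
      rcases le_total (4 * b - x) 0 with h1 | h1
      · rw [max_eq_right h1]
        nlinarith [sq_nonneg (x - β)]
      · rw [max_eq_left h1]
        nlinarith
    · rw [max_eq_left h]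
      rcases le_total (4 * b - x) 0 with h1 | h1
      · rw [max_eq_right h1]
        nlinarith [sq_nonneg (4 * b - x)]
      · rw [max_eq_left h1]
        nlinarith
  have h0 : 0 ≤ θ / b := by positivity
  have h2 := mul_nonneg h0 (sub_nonneg.2 key)
  have e1 : ∀ y : ℝ, θ / (2 * b) * y ^ 2 = θ / b * (y ^ 2 / 2) := by
    intro y
    field_simp
  rw [e1, e1, e1]
  nlinarith

/-- numerical consequences of the invariants -/
structure Num (ε θ : ℝ) (e L : ℕ) : Prop where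
  ε0 : 0 < ε
  ε1 : ε ≤ 1
  θ0 : 0 < θ
  θε : 10 ^ 9 * θ ≤ ε
  L3 : (1000 : ℝ) ≤ L
  n9 : (10 : ℝ) ^ 9 ≤ 2 ^ e
  tau : 9 / 10 * (L : ℝ) ≤ θ * (ε * 2 ^ e)

lemma num {w : ℕ → ℝ} {K : ℕ} {θ : ℝ} {e L : ℕ} (h : Inv w K θ e L) :
    Num (epsL w K) θ e L := by
  obtain ⟨h1, h2, -⟩ := Inv.eps_pow w K θ e L h
  have hθ := h.θ_pos
  have hL : (1000 : ℝ) ≤ L := by exact_mod_cast h.L_ge
  have he : (10 : ℕ) ^ 15 ≤ e := by
    have h3 : 1000 ^ 5 ≤ L ^ 5 := Nat.pow_le_pow_left h.L_ge 5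
    have h4 := h.L_le
    have h5 : (10 : ℕ) ^ 15 = 1000 ^ 5 := by norm_num
    omega
  have he' : (10 : ℝ) ^ 15 ≤ e := by exact_mod_cast he
  refine ⟨h1, h2, hθ, ?_, hL, ?_, h.tau⟩
  · have h3 := Inv.theta_small w K θ e L h
    have h4 : (10 : ℝ) ^ 9 ≤ (e : ℝ) ^ 3 := by
      calc (10 : ℝ) ^ 9 ≤ ((10 : ℝ) ^ 15) ^ 3 := by norm_num
        _ ≤ (e : ℝ) ^ 3 := by gcongr
    have h5 : (10 : ℝ) ^ 9 * θ ≤ (e : ℝ) ^ 3 * θ := mul_le_mul_of_nonneg_right h4 hθ.le
    linarith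
  · have h3 : e < 2 ^ e := Nat.lt_two_pow_self
    have h4 : (e : ℝ) < 2 ^ e := by exact_mod_cast h3
    have h5 : (10 : ℝ) ^ 9 ≤ 10 ^ 15 := by norm_num
    linarith

lemma K_ge {w : ℕ → ℝ} {K : ℕ} {θ : ℝ} {e L : ℕ} (h : Inv w K θ e L) : 2 ≤ K := by
  by_contra hc
  have h1 := h.law.supp 1 (by omega)
  have h2 := h.w1
  have h3 : (0 : ℝ) ≤ 1 / (e : ℝ) := by positivity
  linarith

lemma sum_ext (K K' : ℕ) (hK : K ≤ K') (f : ℕ → ℝ) (hf : ∀ k, K ≤ k → f k = 0) :
    ∑ k ∈ range K', f k = ∑ k ∈ range K, f k := by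
  symm
  refine Finset.sum_subset (Finset.range_mono hK) fun k _ hk => hf k ?_
  simpa using hk

lemma hq_ext (p : ℕ → ℝ) (K K' : ℕ) (hK : K ≤ K') (hp : ∀ k, K ≤ k → p k = 0) :
    ∀ h, hq p K' h = hq p K h := by
  intro h
  induction h with
  | zero => rfl
  | succ h ih =>
    simp only [hq]
    rw [ih]
    exact sum_ext K K' hK _ fun k hk => by rw [hp k hk, zero_mul]

lemma hq_nonneg (p : ℕ → ℝ) (K : ℕ) (hp : ∀ k, 0 ≤ p k) : ∀ h, 0 ≤ hq p K h := by
  intro h
  induction h with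
  | zero => exact le_rfl
  | succ h ih => exact Finset.sum_nonneg fun k _ => mul_nonneg (hp k) (pow_nonneg ih k)

lemma w0_le {w : ℕ → ℝ} {K : ℕ} (hw : IsLaw w K) (hK : 1 ≤ K) : w 0 ≤ 1 := by
  rw [← hw.one]
  exact Finset.single_le_sum (f := w) (fun k _ => hw.nonneg k) (Finset.mem_range.2 hK)

lemma sigma_le {w : ℕ → ℝ} {K : ℕ} (hw : IsLaw w K) (hK : 2 ≤ K) (u : ℝ) (hu : 0 ≤ u)
    (hu1 : u ≤ 1 / 1000) :
    ∑ k ∈ range K, ((k : ℝ) - 1) ^ 2 * (w k * Real.exp (-u * ((k : ℝ) - 1))) ≤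
      101 / 100 + Vp w K := by
  have h1 : ∑ k ∈ range K, ((k : ℝ) - 1) ^ 2 * (w k * Real.exp (-u * ((k : ℝ) - 1))) =
      w 0 * Real.exp u + S2 w K u := by
    unfold S2
    rw [Finset.range_eq_Ico, ← Finset.sum_Ico_consecutive _ (Nat.zero_le 2) hK]
    congr 1
    · rw [← Finset.range_eq_Ico, Finset.sum_range_succ, Finset.sum_range_one]
      norm_num
    · exact Finset.sum_congr rfl fun k _ => by ring
  rw [h1]
  have h2 := S2_zero_le w K hw.nonneg hw.supp u hu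
  have h3 : Real.exp u ≤ 101 / 100 := by
    have h4 := Real.add_one_le_exp (-u)
    have h5 : Real.exp u * Real.exp (-u) = 1 := by rw [← Real.exp_add]; simp
    have h6 := Real.exp_pos u
    nlinarith
  have h7 := w0_le hw (by omega)
  have h8 := hw.nonneg 0
  nlinarith [Real.exp_pos u]

/-- choice of the tilt -/
lemma choose_u {w : ℕ → ℝ} {K : ℕ} {θ : ℝ} {e L : ℕ} (h : Inv w K θ e L) (n : ℕ)
    (hn1 : 13 * 2 ^ e ≤ 10 * n) :
    ∃ u : ℝ, 0 ≤ u ∧ u ≤ 3 * θ ∧
      u = θ / (epsL w K * 2 ^ e) *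
        max (4 * (epsL w K * 2 ^ e) - ((n : ℝ) - 1) * (Fs w K u / ms w K u)) 0 ∧
      (4 * (epsL w K * 2 ^ e) ≤ ((n : ℝ) - 1) * epsL w K → u = 0) := by
  have N := num h
  obtain ⟨ε0, ε1, θ0, θε, L3, n9, tau⟩ := N
  set ε := epsL w K with hε
  have hb : 0 < ε * 2 ^ e := by positivity
  have hn : (13 : ℝ) * 2 ^ e ≤ 10 * n := by exact_mod_cast hn1
  have hF0 : Fs w K 0 = ε := Fs_zero w K
  have hm0 : ms w K 0 = 1 := ms_zero h.law
  by_cases hc : 4 * (ε * 2 ^ e) ≤ ((n : ℝ) - 1) * ε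
  · refine ⟨0, le_rfl, by linarith, ?_, fun _ => rfl⟩
    rw [hF0, hm0, div_one, max_eq_right (by linarith), mul_zero]
  · have hm : ∀ u : ℝ, 0 ≤ u → 1 ≤ ms w K u := by
      intro u hu
      have h1 := ms_ge w K h.law.nonneg 0 u
      rw [hF0, hm0] at h1
      have : 0 ≤ (u - 0) * ε := by rw [sub_zero]; positivity
      linarith
    set G : ℝ → ℝ := fun u => θ / (ε * 2 ^ e) *
        max (4 * (ε * 2 ^ e) - ((n : ℝ) - 1) * (Fs w K u / ms w K u)) 0 - u with hG
    have hcont : ContinuousOn G (Set.Icc 0 (3 * θ)) := by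
      apply ContinuousOn.sub _ continuousOn_id
      apply ContinuousOn.mul continuousOn_const
      refine ContinuousOn.sup ?_ continuousOn_const
      apply ContinuousOn.sub continuousOn_const
      apply ContinuousOn.mul continuousOn_const
      apply ContinuousOn.div (cont_Fs w K).continuousOn (cont_ms w K).continuousOn
      intro u hu
      have := hm u hu.1
      positivity
    have hG0 : 0 ≤ G 0 := by
      simp only [hG, sub_zero]
      have : 0 ≤ max (4 * (ε * 2 ^ e) - ((n : ℝ) - 1) * (Fs w K 0 / ms w K 0)) 0 :=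
        le_max_right _ _
      positivity
    have hG3 : G (3 * θ) ≤ 0 := by
      simp only [hG]
      have h3 : 0 ≤ 3 * θ := by linarith
      have hF3 : ε ≤ Fs w K (3 * θ) := by
        rw [← hF0]
        exact Fs_mono w K h.law.nonneg 0 (3 * θ) h3
      have hF3' : Fs w K (3 * θ) ≤ 2 * ε := by
        have := Inv.Fs_flat w K θ e L h (3 * θ) h3 (by linarith)
        have e1 : 3 * θ / θ = 3 := by field_simp
        rw [e1] at this
        linarith
      have hm3 := hm (3 * θ) h3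
      have hm3' : ms w K (3 * θ) ≤ 1001 / 1000 := by
        have h1 := ms_ge w K h.law.nonneg (3 * θ) 0
        rw [hm0] at h1
        nlinarith
      have hβ : ε * 2 ^ e ≤ ((n : ℝ) - 1) * (Fs w K (3 * θ) / ms w K (3 * θ)) := by
        rw [← mul_div_assoc, le_div_iff₀ (by linarith)]
        have h4 : ((n : ℝ) - 1) * ε ≤ ((n : ℝ) - 1) * Fs w K (3 * θ) :=
          mul_le_mul_of_nonneg_left hF3 (by linarith)
        have h5 : ε * 2 ^ e * ms w K (3 * θ) ≤ ε * 2 ^ e * (1001 / 1000) :=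
          mul_le_mul_of_nonneg_left hm3' hb.le
        nlinarith
      have h6 : max (4 * (ε * 2 ^ e) - ((n : ℝ) - 1) *
          (Fs w K (3 * θ) / ms w K (3 * θ))) 0 ≤ 3 * (ε * 2 ^ e) :=
        max_le (by linarith) (by linarith)
      have h7 : θ / (ε * 2 ^ e) * max (4 * (ε * 2 ^ e) - ((n : ℝ) - 1) *
          (Fs w K (3 * θ) / ms w K (3 * θ))) 0 ≤ θ / (ε * 2 ^ e) * (3 * (ε * 2 ^ e)) :=
        mul_le_mul_of_nonneg_left h6 (by positivity)
      have h8 : θ / (ε * 2 ^ e) * (3 * (ε * 2 ^ e)) = 3 * θ := by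
        field_simp
      linarith
    obtain ⟨u, hu, hGu⟩ := intermediate_value_Icc' (by linarith : (0 : ℝ) ≤ 3 * θ) hcont
      (show (0 : ℝ) ∈ Set.Icc (G (3 * θ)) (G 0) from ⟨hG3, hG0⟩)
    refine ⟨u, hu.1, hu.2, ?_, fun h => absurd h hc⟩
    simp only [hG] at hGu
    linarith


/-- data of the tilt -/
structure Dat (ε θ : ℝ) (e L n : ℕ) (u m F β : ℝ) : Prop where
  num : Num ε θ e L
  n1 : 13 / 10 * 2 ^ e ≤ (n : ℝ)
  n2 : (n : ℝ) ≤ 5 * (2 ^ e * 2 ^ L)
  u0 : 0 ≤ u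
  u3 : u ≤ 3 * θ
  m1 : 1 + u * ε ≤ m
  m2 : m ≤ 1001 / 1000
  F1 : ε ≤ F
  F2 : F ≤ (1 + 3 / 200 * (u / θ)) * ε
  F3 : F ≤ 209 / 200 * ε
  βe : β = ((n : ℝ) - 1) * (F / m)
  ue : u = θ / (ε * 2 ^ e) * max (4 * (ε * 2 ^ e) - β) 0
  β1 : 129 / 100 * (ε * 2 ^ e) ≤ β
  β2 : 99 / 100 * (n * ε) ≤ β
  β3 : β ≤ 209 / 200 * (n * ε)

lemma dat {w : ℕ → ℝ} {K : ℕ} {θ : ℝ} {e L : ℕ} (h : Inv w K θ e L) (n : ℕ)
    (hn1 : 13 * 2 ^ e ≤ 10 * n) (hn2 : n ≤ 5 * 2 ^ (e + L)) (u : ℝ) (hu0 : 0 ≤ u)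
    (hu3 : u ≤ 3 * θ)
    (hu : u = θ / (epsL w K * 2 ^ e) *
        max (4 * (epsL w K * 2 ^ e) - ((n : ℝ) - 1) * (Fs w K u / ms w K u)) 0) :
    Dat (epsL w K) θ e L n u (ms w K u) (Fs w K u) (((n : ℝ) - 1) * (Fs w K u / ms w K u)) := by
  have N := num h
  have N' := N
  obtain ⟨ε0, ε1, θ0, θε, L3, n9, tau⟩ := N'
  set ε := epsL w K with hε
  have hb : 0 < ε * 2 ^ e := by positivity
  have hn : (13 : ℝ) * 2 ^ e ≤ 10 * n := by exact_mod_cast hn1
  have hn' : (n : ℝ) ≤ 5 * 2 ^ (e + L) := by exact_mod_cast hn2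
  have hF0 : Fs w K 0 = ε := Fs_zero w K
  have hm0 : ms w K 0 = 1 := ms_zero h.law
  have m1 : 1 + u * ε ≤ ms w K u := by
    have h1 := ms_ge w K h.law.nonneg 0 u
    rwa [hF0, hm0, sub_zero] at h1
  have hm1 : 1 ≤ ms w K u := by
    have : 0 ≤ u * ε := by positivity
    linarith
  have F1 : ε ≤ Fs w K u := by
    rw [← hF0]
    exact Fs_mono w K h.law.nonneg 0 u hu0
  have F2 : Fs w K u ≤ (1 + 3 / 200 * (u / θ)) * ε := Inv.Fs_flat w K θ e L h u hu0 (by linarith)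
  have F3 : Fs w K u ≤ 209 / 200 * ε := by
    refine F2.trans (mul_le_mul_of_nonneg_right ?_ ε0.le)
    have : u / θ ≤ 3 := by rw [div_le_iff₀ θ0]; exact hu3
    linarith
  have m2 : ms w K u ≤ 10001 / 10000 := by
    have h1 := ms_ge w K h.law.nonneg u 0
    rw [hm0] at h1
    nlinarith
  have hnn : (10 : ℝ) ^ 9 ≤ n := by linarith
  have n0 : (0 : ℝ) ≤ (n : ℝ) - 1 := by linarith
  have hβlow : ((n : ℝ) - 1) * ε * (9999 / 10000) ≤
      ((n : ℝ) - 1) * (Fs w K u / ms w K u) := by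
    have e1 : ((n : ℝ) - 1) * (Fs w K u / ms w K u) = (((n : ℝ) - 1) * Fs w K u) / ms w K u := by
      ring
    rw [e1, le_div_iff₀ (by linarith)]
    have h4 : ((n : ℝ) - 1) * ε ≤ ((n : ℝ) - 1) * Fs w K u :=
      mul_le_mul_of_nonneg_left F1 n0
    have h5 : 0 ≤ ((n : ℝ) - 1) * ε := by positivity
    nlinarith
  have hβup : ((n : ℝ) - 1) * (Fs w K u / ms w K u) ≤ 209 / 200 * (n * ε) := by
    have e1 : ((n : ℝ) - 1) * (Fs w K u / ms w K u) = (((n : ℝ) - 1) * Fs w K u) / ms w K u := by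
      ring
    rw [e1, div_le_iff₀ (by linarith)]
    have h4 : ((n : ℝ) - 1) * Fs w K u ≤ ((n : ℝ) - 1) * (209 / 200 * ε) :=
      mul_le_mul_of_nonneg_left F3 n0
    have h5 : 0 ≤ 209 / 200 * (n * ε) := by positivity
    nlinarith
  refine ⟨N, by linarith, ?_, hu0, hu3, m1, by linarith, F1, F2, F3, rfl, hu, ?_, ?_, hβup⟩
  · rwa [← pow_add]
  · refine le_trans ?_ hβlow
    have : (129 / 100 * 2 ^ e) * ε ≤ (((n : ℝ) - 1) * (9999 / 10000)) * ε := by
      apply mul_le_mul_of_nonneg_right _ ε0.le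
      linarith
    linarith
  · refine le_trans ?_ hβlow
    have : (99 / 100 * (n : ℝ)) * ε ≤ (((n : ℝ) - 1) * (9999 / 10000)) * ε := by
      apply mul_le_mul_of_nonneg_right _ ε0.le
      linarith
    linarith

section dat
variable {ε θ : ℝ} {e L n : ℕ} {u m F β : ℝ}

lemma xineq (x : ℝ) (hx1 : 129 / 100 ≤ x) (hx2 : x ≤ 4) :
    (4 - x) ^ 2 * (1 / 2 + 3 / 200 * x) ≤ 4 := by
  have h5 : (4 - x) * (1 / 2 + 3 / 200 * x) ≤ 142 / 100 := by nlinarith
  have h6 : 0 ≤ 4 - x := by linarith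
  have h7 := mul_le_mul_of_nonneg_left h5 h6
  have e1 : (4 - x) ^ 2 * (1 / 2 + 3 / 200 * x) = (4 - x) * ((4 - x) * (1 / 2 + 3 / 200 * x)) := by
    ring
  rw [e1]
  linarith

/-- the exponent of the first claim -/
lemma Dat.expo (D : Dat ε θ e L n u m F β) :
    soft θ (ε * 2 ^ e) β + u * β - 4 * (θ * (ε * 2 ^ e)) ≤ ((n : ℝ) - 1) * (1 - m⁻¹) := by
  obtain ⟨⟨ε0, ε1, θ0, θε, L3, n9, tau⟩, n1, n2, u0, u3, m1, m2, F1, F2, F3, βe, ue, β1, β2, β3⟩ := D
  set b := ε * 2 ^ e with hb'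
  have hb : 0 < b := by positivity
  have hm1 : 1 ≤ m := by
    have : 0 ≤ u * ε := by positivity
    linarith
  have hm0 : 0 < m := by linarith
  have n0 : (0 : ℝ) ≤ (n : ℝ) - 1 := by linarith
  -- step 1
  have s1 : u * β - 3 / 200 * (u ^ 2 / θ) * β ≤ ((n : ℝ) - 1) * (1 - m⁻¹) := by
    have e1 : (1 : ℝ) - m⁻¹ = (m - 1) / m := by field_simp
    have e2 : u * β - 3 / 200 * (u ^ 2 / θ) * β =
        ((n : ℝ) - 1) * ((u * F - 3 / 200 * (u ^ 2 / θ) * F) / m) := by
      rw [βe]; ring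
    rw [e1, e2]
    apply mul_le_mul_of_nonneg_left _ n0
    apply div_le_div_of_nonneg_right _ hm0.le
    have h1 : u * F ≤ u * ((1 + 3 / 200 * (u / θ)) * ε) := mul_le_mul_of_nonneg_left F2 u0
    have h2 : u * ((1 + 3 / 200 * (u / θ)) * ε) = u * ε + 3 / 200 * (u ^ 2 / θ) * ε := by
      field_simp
    have h3 : 3 / 200 * (u ^ 2 / θ) * ε ≤ 3 / 200 * (u ^ 2 / θ) * F :=
      mul_le_mul_of_nonneg_left F1 (by positivity)
    linarith
  refine le_trans ?_ s1
  -- step 2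
  have s2 : soft θ b β + 3 / 200 * (u ^ 2 / θ) * β ≤ 4 * (θ * b) := by
    rcases le_total (4 * b - β) 0 with h | h
    · rw [max_eq_right h] at ue
      unfold soft
      rw [max_eq_right h, ue]
      simp
      positivity
    · rw [max_eq_left h] at ue
      unfold soft
      rw [max_eq_left h]
      obtain ⟨x, hx⟩ : ∃ x, β = x * b := ⟨β / b, by field_simp⟩
      have hx1 : 129 / 100 ≤ x := by
        rw [hx] at β1
        exact le_of_mul_le_mul_right β1 hb
      have hx2 : x ≤ 4 := by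
        rw [hx] at h
        by_contra hc
        push Not at hc
        nlinarith
      have e1 : θ / (2 * b) * (4 * b - β) ^ 2 + 3 / 200 * (u ^ 2 / θ) * β =
          θ * b * ((4 - x) ^ 2 * (1 / 2 + 3 / 200 * x)) := by
        rw [ue, hx]
        field_simp
      rw [e1]
      have h4 := xineq x hx1 hx2
      have h7 : 0 < θ * b := by positivity
      have h8 := mul_le_mul_of_nonneg_left h4 h7.le
      linarith
  linarith

lemma Dat.pow_ge (D : Dat ε θ e L n u m F β) (hn : 1 ≤ n) :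
    Real.exp (soft θ (ε * 2 ^ e) β + u * β - 4 * (θ * (ε * 2 ^ e))) ≤ m ^ (n - 1) := by
  have hm0 : 0 < m := by
    have := D.m1
    have := D.u0
    have := D.num.ε0
    have : 0 ≤ u * ε := by positivity
    linarith
  have h1 := D.expo
  have h2 := Real.one_sub_inv_le_log_of_pos hm0
  have n0 : (0 : ℝ) ≤ ((n - 1 : ℕ) : ℝ) := by positivity
  have hc : ((n - 1 : ℕ) : ℝ) = (n : ℝ) - 1 := by rw [Nat.cast_sub hn, Nat.cast_one]
  have h3 : m ^ (n - 1) = Real.exp (((n - 1 : ℕ) : ℝ) * Real.log m) := by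
    rw [Real.exp_nat_mul, Real.exp_log hm0]
  rw [h3]
  apply Real.exp_le_exp.2
  rw [hc] at n0 ⊢
  exact h1.trans (mul_le_mul_of_nonneg_left h2 n0)


lemma Dat.m0 (D : Dat ε θ e L n u m F β) : 1 ≤ m := by
  have := D.m1
  have := mul_nonneg D.u0 D.num.ε0.le
  linarith

lemma Dat.b0 (D : Dat ε θ e L n u m F β) : 0 < ε * 2 ^ e := by
  have := D.num.ε0
  positivity

lemma Dat.neθ (D : Dat ε θ e L n u m F β) : 117 / 100 * (L : ℝ) ≤ n * ε * θ := by
  have h1 := D.num.tau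
  have h2 : 13 / 10 * 2 ^ e * (ε * θ) ≤ n * (ε * θ) :=
    mul_le_mul_of_nonneg_right D.n1 (mul_nonneg D.num.ε0.le D.num.θ0.le)
  linarith

/-- the marked weights in the tilted scale -/
noncomputable def gam (w : ℕ → ℝ) (K : ℕ) (θ : ℝ) (e L : ℕ) (u m : ℝ) (k : ℕ) : ℝ :=
  m⁻¹ * Real.exp (-u * ((k : ℝ) - 1)) * phCol w K θ e L k

/-- the law in the tilted scale -/
noncomputable def pp (w : ℕ → ℝ) (u m : ℝ) (k : ℕ) : ℝ :=
  m⁻¹ * Real.exp (-u * ((k : ℝ) - 1)) * w k

/-- the bound of `gam` -/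
noncomputable def Gam (L : ℕ) (ε θ : ℝ) (e : ℕ) (u m β : ℝ) : ℝ :=
  m⁻¹ * (qc L ε (ε * 2 ^ e) * Real.exp (-(soft θ (ε * 2 ^ e) β + u * β) + u))

lemma qc_pos (L : ℕ) (ε b : ℝ) (hL : (1000 : ℝ) ≤ L) (hε : 0 < ε) (hb : 0 < b) :
    0 < qc L ε b := by
  unfold qc
  positivity

lemma Dat.Gam_pos (D : Dat ε θ e L n u m F β) : 0 < Gam L ε θ e u m β := by
  have h1 := qc_pos L ε (ε * 2 ^ e) D.num.L3 D.num.ε0 D.b0
  have h2 := D.m0
  unfold Gam
  positivity

lemma Dat.gam_le {w : ℕ → ℝ} {K : ℕ} (D : Dat (epsL w K) θ e L n u m F β) (k : ℕ) :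
    gam w K θ e L u m k ≤ Gam L (epsL w K) θ e u m β := by
  have hb := D.b0
  have hm := D.m0
  have hq := qc_pos L (epsL w K) (epsL w K * 2 ^ e) D.num.L3 D.num.ε0 D.b0
  have hθ := D.num.θ0
  unfold gam Gam phCol col
  split_ifs with h
  · rw [mul_assoc]
    apply mul_le_mul_of_nonneg_left _ (by positivity)
    have e1 : Real.exp (-u * ((k : ℝ) - 1)) * (qc L (epsL w K) (epsL w K * 2 ^ e) *
        Real.exp (-soft θ (epsL w K * 2 ^ e) k)) = qc L (epsL w K) (epsL w K * 2 ^ e) *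
        Real.exp (-(soft θ (epsL w K * 2 ^ e) k + u * k) + u) := by
      rw [show -(soft θ (epsL w K * 2 ^ e) k + u * k) + u =
        -u * ((k : ℝ) - 1) + -soft θ (epsL w K * 2 ^ e) k by ring, Real.exp_add]
      ring
    rw [e1]
    apply mul_le_mul_of_nonneg_left _ hq.le
    apply Real.exp_le_exp.2
    have h1 := soft_min θ (epsL w K * 2 ^ e) k β hθ.le hb
    rw [← D.ue] at h1
    linarith
  · rw [mul_zero]
    positivity

lemma Dat.le_gam {w : ℕ → ℝ} {K : ℕ} (D : Dat (epsL w K) θ e L n u m F β) (k : ℕ)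
    (h1 : epsL w K * 2 ^ e < k) (h2 : (k : ℝ) ≤ 8 * 2 ^ L * (epsL w K * 2 ^ e)) (s : ℝ)
    (h3 : soft θ (epsL w K * 2 ^ e) k + u * k ≤ soft θ (epsL w K * 2 ^ e) β + u * β + s) :
    Gam L (epsL w K) θ e u m β * Real.exp (-s) ≤ gam w K θ e L u m k := by
  have hb := D.b0
  have hm := D.m0
  have hq := qc_pos L (epsL w K) (epsL w K * 2 ^ e) D.num.L3 D.num.ε0 D.b0
  unfold gam Gam phCol col
  rw [if_pos ⟨h1, h2⟩]
  have e1 : m⁻¹ * Real.exp (-u * ((k : ℝ) - 1)) * (qc L (epsL w K) (epsL w K * 2 ^ e) *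
      Real.exp (-soft θ (epsL w K * 2 ^ e) k)) = m⁻¹ * (qc L (epsL w K) (epsL w K * 2 ^ e) *
      Real.exp (-(soft θ (epsL w K * 2 ^ e) k + u * k) + u)) := by
    rw [show -(soft θ (epsL w K * 2 ^ e) k + u * k) + u =
      -u * ((k : ℝ) - 1) + -soft θ (epsL w K * 2 ^ e) k by ring, Real.exp_add]
    ring
  have e2 : m⁻¹ * (qc L (epsL w K) (epsL w K * 2 ^ e) *
      Real.exp (-(soft θ (epsL w K * 2 ^ e) β + u * β) + u)) * Real.exp (-s) =
      m⁻¹ * (qc L (epsL w K) (epsL w K * 2 ^ e) *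
      Real.exp (-(soft θ (epsL w K * 2 ^ e) β + u * β) + u + -s)) := by
    rw [Real.exp_add _ (-s)]
    ring
  rw [e1, e2]
  apply mul_le_mul_of_nonneg_left _ (by positivity)
  apply mul_le_mul_of_nonneg_left _ hq.le
  apply Real.exp_le_exp.2
  linarith

/-- what is needed about the second moment -/
lemma Dat.sig (D : Dat ε θ e L n u m F β) (s : ℝ) (hs : s ≤ 101 / 100 + 7 / 500 * (ε / θ)) :
    s / m ≤ 15 / 1000 * (ε / θ) := by
  have hm := D.m0
  have hθ := D.num.θ0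
  have h1 : 10 ^ 9 ≤ ε / θ := by
    rw [le_div_iff₀ hθ]
    exact D.num.θε
  rw [div_le_iff₀ (by linarith)]
  have h2 : 15 / 1000 * (ε / θ) * 1 ≤ 15 / 1000 * (ε / θ) * m :=
    mul_le_mul_of_nonneg_left hm (by positivity)
  linarith

/-- `n σ² / β² ≤ 7/(500 L)` -/
lemma Dat.err1 (D : Dat ε θ e L n u m F β) (s : ℝ) (hs : s ≤ 15 / 1000 * (ε / θ)) :
    (n : ℝ) * s / β ^ 2 ≤ 7 / (500 * L) := by
  have hε := D.num.ε0
  have hθ := D.num.θ0
  have hL := D.num.L3
  have hb := D.b0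
  have h1 := D.neθ
  have hn : (0 : ℝ) < n := by
    have := D.n1
    have : (0 : ℝ) < 13 / 10 * 2 ^ e := by positivity
    linarith
  have hβ : (0 : ℝ) < 99 / 100 * (n * ε) := by positivity
  have hβ2 : (99 / 100 * (n * ε)) ^ 2 ≤ β ^ 2 := by
    apply pow_le_pow_left₀ hβ.le D.β2
  calc (n : ℝ) * s / β ^ 2 ≤ (n : ℝ) * (15 / 1000 * (ε / θ)) / β ^ 2 := by gcongr
    _ ≤ (n : ℝ) * (15 / 1000 * (ε / θ)) / (99 / 100 * (n * ε)) ^ 2 := by gcongr
    _ = 15 / 1000 / ((99 / 100) ^ 2 * (n * ε * θ)) := by field_simp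
    _ ≤ 15 / 1000 / ((99 / 100) ^ 2 * (117 / 100 * (L : ℝ))) := by gcongr
    _ ≤ 7 / (500 * L) := by
      rw [div_le_div_iff₀ (by positivity) (by positivity)]
      nlinarith

end dat

section fin
variable {w : ℕ → ℝ} {K : ℕ} {θ : ℝ} {e L n : ℕ} {u β : ℝ}

lemma pp_eq : pp w u (ms w K u) = tilt w K u := by
  funext k
  unfold pp tilt
  rw [div_eq_mul_inv]
  ring

lemma pp_nonneg (hw : IsLaw w K) {m : ℝ} (hm : 1 ≤ m) (k : ℕ) : 0 ≤ pp w u m k := by
  have := hw.nonneg k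
  unfold pp
  positivity

lemma pp_supp (hw : IsLaw w K) {m : ℝ} (k : ℕ) (hk : K ≤ k) : pp w u m k = 0 := by
  unfold pp
  rw [hw.supp k hk, mul_zero]

lemma pp_one (hw : IsLaw w K) (hm : 1 ≤ ms w K u) (K' : ℕ) (hK : K ≤ K') :
    ∑ k ∈ range K', pp w u (ms w K u) k = 1 := by
  rw [sum_ext K K' hK _ fun k hk => pp_supp hw k hk]
  calc ∑ k ∈ range K, pp w u (ms w K u) k
      = (ms w K u)⁻¹ * ∑ k ∈ range K, w k * Real.exp (-u * ((k : ℝ) - 1)) := by
        rw [Finset.mul_sum]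
        exact Finset.sum_congr rfl fun k _ => by unfold pp; ring
    _ = (ms w K u)⁻¹ * ms w K u := rfl
    _ = 1 := inv_mul_cancel₀ (by linarith)

lemma pp_eps (hw : IsLaw w K) (K' : ℕ) (hK : K ≤ K') :
    ∑ k ∈ range K', (1 - (k : ℝ)) * pp w u (ms w K u) k = Fs w K u / ms w K u := by
  rw [sum_ext K K' hK _ fun k hk => by rw [pp_supp hw k hk, mul_zero]]
  rw [div_eq_inv_mul, show Fs w K u = ∑ k ∈ range K, (1 - (k : ℝ)) * w k *
    Real.exp (-u * ((k : ℝ) - 1)) from rfl, Finset.mul_sum]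
  exact Finset.sum_congr rfl fun k _ => by unfold pp; ring

lemma pp_sig (h : Inv w K θ e L)
    (D : Dat (epsL w K) θ e L n u (ms w K u) (Fs w K u) β) (K' : ℕ) (hK : K ≤ K') :
    ∑ k ∈ range K', ((k : ℝ) - 1) ^ 2 * pp w u (ms w K u) k ≤
      15 / 1000 * (epsL w K / θ) := by
  rw [sum_ext K K' hK _ fun k hk => by rw [pp_supp h.law k hk, mul_zero]]
  have h1 : ∑ k ∈ range K, ((k : ℝ) - 1) ^ 2 * pp w u (ms w K u) k =
      (∑ k ∈ range K, ((k : ℝ) - 1) ^ 2 * (w k * Real.exp (-u * ((k : ℝ) - 1)))) /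
        ms w K u := by
    rw [div_eq_inv_mul, Finset.mul_sum]
    exact Finset.sum_congr rfl fun k _ => by unfold pp; ring
  rw [h1]
  apply D.sig
  have h2 := D.num.θε
  have h3 := D.num.ε1
  have h4 := D.u3
  refine (sigma_le h.law (K_ge h) u D.u0 (by linarith)).trans ?_
  have := h.v2
  linarith

lemma gam_nonneg (h : Inv w K θ e L) {m : ℝ} (hm : 1 ≤ m) (k : ℕ) :
    0 ≤ gam w K θ e L u m k := by
  have := (Inv.col_facts w K θ e L h).1 k
  unfold gam
  positivity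

/-- the lower bound -/
lemma lower (h : Inv w K θ e L)
    (D : Dat (epsL w K) θ e L n u (ms w K u) (Fs w K u) β) :
    1 / 2 * Gam L (epsL w K) θ e u (ms w K u) β ≤
      TM n (gam w K θ e L u (ms w K u)) (pp w u (ms w K u)) (fun _ => True) := by
  have hm := D.m0
  have hε := D.num.ε0
  have hθ := D.num.θ0
  have hL := D.num.L3
  have hb := D.b0
  have hG := D.Gam_pos
  have hn9 : (10 : ℝ) ^ 9 ≤ n := by
    have h1 := D.n1
    have h2 := D.num.n9
    have : (0 : ℝ) < 2 ^ e := by positivity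
    linarith
  have hn2 : 2 ≤ n := by
    have : (2 : ℝ) ≤ n := by linarith
    exact_mod_cast this
  have hn0 : (0 : ℝ) < n := by linarith
  have hβ0 : 0 < β := lt_of_lt_of_le (by positivity) D.β1
  set K' := max K n with hK'
  have hKK : K ≤ K' := le_max_left _ _
  have hs := pp_sig h D K' hKK
  set σ2 := ∑ k ∈ range K', ((k : ℝ) - 1) ^ 2 * pp w u (ms w K u) k with hσ
  have hL2 : (2 : ℝ) ≤ 2 ^ L := by
    have h1 : 2 ^ 1 ≤ 2 ^ L := Nat.pow_le_pow_right (by norm_num) (by have := h.L_ge; omega)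
    have h2 : ((2 ^ 1 : ℕ) : ℝ) ≤ ((2 ^ L : ℕ) : ℝ) := by exact_mod_cast h1
    push_cast at h2
    linarith
  have e1 := D.err1 (15 / 1000 * (epsL w K / θ)) le_rfl
  have e2 : (7 : ℝ) / (500 * L) ≤ 7 / 500000 := by
    rw [div_le_div_iff₀ (by positivity) (by norm_num)]
    linarith
  have e3 : (n : ℝ) * (15 / 1000 * (epsL w K / θ)) ≤ 7 / 500000 * β ^ 2 := by
    have := e1.trans e2
    rwa [div_le_iff₀ (by positivity)] at this
  have hs0 : 0 < 15 / 1000 * (epsL w K / θ) := by positivity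
  have hβe : β = ((n : ℝ) - 1) * (∑ k ∈ range K', (1 - (k : ℝ)) * pp w u (ms w K u) k) := by
    rw [pp_eps h.law K' hKK]
    exact D.βe
  have OL := fun (Γ0 ρ : ℝ) (h0 : 0 ≤ Γ0) (h1 : 0 < ρ) (h2 : ρ ≤ β) h3 =>
    oneType_lower n K' hn2 (le_max_right _ _) (gam w K θ e L u (ms w K u))
      (pp w u (ms w K u)) (gam_nonneg h hm) (pp_nonneg h.law hm) (pp_one h.law hm K' hKK)
      Γ0 h0 _ σ2 β ρ rfl hσ hβe h1 h2 h3
  by_cases hc : β ≤ 8 * (epsL w K * 2 ^ e)
  · set ρ := Real.sqrt (4 * (n * (15 / 1000 * (epsL w K / θ)))) with hρ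
    have hρ2 : ρ ^ 2 = 4 * (n * (15 / 1000 * (epsL w K / θ))) := Real.sq_sqrt (by positivity)
    have hρ0 : 0 < ρ := Real.sqrt_pos.2 (by positivity)
    have hρβ : ρ ≤ β / 10 := by
      rw [hρ, Real.sqrt_le_iff]
      refine ⟨by positivity, ?_⟩
      have : 0 < β ^ 2 := by positivity
      have e4 : (β / 10) ^ 2 = β ^ 2 / 100 := by ring
      rw [e4]
      linarith
    have hexp : θ / (2 * (epsL w K * 2 ^ e)) * ρ ^ 2 ≤ 1 / 4 := by
      have e4 : θ / (2 * (epsL w K * 2 ^ e)) * ρ ^ 2 =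
          3 / 100 * ((n * epsL w K) / (epsL w K * 2 ^ e)) := by
        rw [hρ2]
        field_simp
        ring
      rw [e4]
      have e5 : (n * epsL w K) / (epsL w K * 2 ^ e) ≤ 81 / 10 := by
        rw [div_le_iff₀ hb]
        have := D.β2
        linarith
      linarith
    have key := OL (Gam L (epsL w K) θ e u (ms w K u) β * Real.exp (-(1 / 4))) ρ
      (by positivity) hρ0 (by linarith) (by
        intro k hk _
        rw [abs_lt] at hk
        have hβ1 := D.β1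
        apply D.le_gam k
        · linarith [hk.1]
        · have : 8 * 2 * (epsL w K * 2 ^ e) ≤ 8 * 2 ^ L * (epsL w K * 2 ^ e) := by
            apply mul_le_mul_of_nonneg_right _ hb.le
            linarith
          linarith [hk.2]
        · have h1 := soft_upper θ (epsL w K * 2 ^ e) k β hθ.le hb
          rw [← D.ue] at h1
          have h2 : ((k : ℝ) - β) ^ 2 ≤ ρ ^ 2 := by
            apply sq_le_sq'
            · linarith [hk.1]
            · linarith [hk.2]
          have h3 : θ / (2 * (epsL w K * 2 ^ e)) * ((k : ℝ) - β) ^ 2 ≤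
              θ / (2 * (epsL w K * 2 ^ e)) * ρ ^ 2 := by gcongr
          linarith)
    refine le_trans ?_ key
    have h4 : (n : ℝ) * σ2 / ρ ^ 2 ≤ 1 / 4 := by
      rw [div_le_iff₀ (by positivity), hρ2]
      have : (n : ℝ) * σ2 ≤ n * (15 / 1000 * (epsL w K / θ)) := by gcongr
      linarith
    have h5 : 3 / 4 ≤ Real.exp (-(1 / 4) : ℝ) := by
      have := Real.add_one_le_exp (-(1 / 4) : ℝ)
      linarith
    have h6 : 3 / 4 * (3 / 4) ≤ Real.exp (-(1 / 4) : ℝ) * (1 - (n : ℝ) * σ2 / ρ ^ 2) := by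
      apply mul_le_mul h5 (by linarith) (by norm_num) (by positivity)
    rw [mul_assoc]
    nlinarith
  · push Not at hc
    have hu : u = 0 := by
      rw [D.ue, max_eq_right (by linarith), mul_zero]
    have key := OL (Gam L (epsL w K) θ e u (ms w K u) β) (β / 2) hG.le (by positivity)
      (by linarith) (by
        intro k hk _
        rw [abs_lt] at hk
        have hk1 : 4 * (epsL w K * 2 ^ e) < k := by linarith [hk.1]
        have key := D.le_gam k (by linarith) (by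
          have h3 := D.β3
          have h4 : (n : ℝ) * epsL w K ≤ 5 * (2 ^ e * 2 ^ L) * epsL w K :=
            mul_le_mul_of_nonneg_right D.n2 hε.le
          have h5 : 0 < 2 ^ L * (epsL w K * 2 ^ e) := by positivity
          have h6 : 5 * (2 ^ e * 2 ^ L) * epsL w K = 5 * (2 ^ L * (epsL w K * 2 ^ e)) := by ring
          rw [h6] at h4
          linarith [hk.2]) 0 (by
          have s1 : soft θ (epsL w K * 2 ^ e) k = 0 := by
            unfold soft
            rw [max_eq_right (by linarith)]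
            ring
          have s2 : soft θ (epsL w K * 2 ^ e) β = 0 := by
            unfold soft
            rw [max_eq_right (by linarith)]
            ring
          rw [s1, s2, hu]
          simp)
        simpa using key)
    refine le_trans ?_ key
    have h4 : (n : ℝ) * σ2 / (β / 2) ^ 2 ≤ 1 / 2 := by
      rw [div_le_iff₀ (by positivity)]
      have : (n : ℝ) * σ2 ≤ n * (15 / 1000 * (epsL w K / θ)) := by gcongr
      have h5 : 0 < β ^ 2 := by positivity
      have h6 : (β / 2) ^ 2 = β ^ 2 / 4 := by ring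
      rw [h6]
      linarith
    nlinarith


/-- the sum `hsum` -/
lemma exists_A (h : Inv w K θ e L) (N : Num (epsL w K) θ e L) :
    ∃ A : ℕ, (2 : ℝ) ^ A ≤ epsL w K * 2 ^ e ∧ epsL w K * 2 ^ e < 2 ^ (A + 1) ∧
      hsum w e (epsL w K * 2 ^ e) = ∑ i ∈ range (A + 1), 1 / Dp w (2 ^ i) := by
  obtain ⟨ε0, ε1, θ0, θε, L3, n9, tau⟩ := N
  set b := epsL w K * 2 ^ e with hb
  have hb0 : 0 < b := by positivity
  have hb1 : 1 ≤ b := by
    have h1 : θ ≤ 1 := by
      have : (0 : ℝ) < 10 ^ 9 := by norm_num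
      nlinarith
    have h2 : θ * b ≤ 1 * b := mul_le_mul_of_nonneg_right h1 hb0.le
    linarith
  have hfl : ⌊b⌋₊ ≠ 0 := by
    have := Nat.one_le_floor_iff b |>.2 hb1
    omega
  refine ⟨Nat.log 2 ⌊b⌋₊, ?_, ?_, ?_⟩
  · have h1 : 2 ^ Nat.log 2 ⌊b⌋₊ ≤ ⌊b⌋₊ := Nat.pow_log_le_self 2 hfl
    have h2 : ((2 ^ Nat.log 2 ⌊b⌋₊ : ℕ) : ℝ) ≤ ⌊b⌋₊ := by exact_mod_cast h1
    push_cast at h2
    exact h2.trans (Nat.floor_le hb0.le)
  · have h1 : ⌊b⌋₊ < 2 ^ (Nat.log 2 ⌊b⌋₊ + 1) := Nat.lt_pow_succ_log_self (by norm_num) _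
    have h2 : b < ⌊b⌋₊ + 1 := Nat.lt_floor_add_one b
    have h3 : ((⌊b⌋₊ + 1 : ℕ) : ℝ) ≤ ((2 ^ (Nat.log 2 ⌊b⌋₊ + 1) : ℕ) : ℝ) := by exact_mod_cast h1
    push_cast at h3
    linarith
  · have h1 : 2 ^ Nat.log 2 ⌊b⌋₊ ≤ ⌊b⌋₊ := Nat.pow_log_le_self 2 hfl
    have h2 : ((2 ^ Nat.log 2 ⌊b⌋₊ : ℕ) : ℝ) ≤ ⌊b⌋₊ := by exact_mod_cast h1
    push_cast at h2
    have h2' : (2 : ℝ) ^ Nat.log 2 ⌊b⌋₊ ≤ b := h2.trans (Nat.floor_le hb0.le)
    have h3 : ⌊b⌋₊ < 2 ^ (Nat.log 2 ⌊b⌋₊ + 1) := Nat.lt_pow_succ_log_self (by norm_num) _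
    have h4 : b < ⌊b⌋₊ + 1 := Nat.lt_floor_add_one b
    have h5 : ((⌊b⌋₊ + 1 : ℕ) : ℝ) ≤ ((2 ^ (Nat.log 2 ⌊b⌋₊ + 1) : ℕ) : ℝ) := by
      exact_mod_cast h3
    push_cast at h5
    have h5' : b < 2 ^ (Nat.log 2 ⌊b⌋₊ + 1) := by linarith
    set A := Nat.log 2 ⌊b⌋₊ with hA
    have hAe : A ≤ e := by
      have h6 : (2 : ℝ) ^ A ≤ 2 ^ e := by
        refine h2'.trans ?_
        rw [hb]
        have : epsL w K * 2 ^ e ≤ 1 * 2 ^ e := mul_le_mul_of_nonneg_right ε1 (by positivity)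
        linarith
      have h7 : (2 : ℕ) ^ A ≤ 2 ^ e := by exact_mod_cast h6
      exact (Nat.pow_le_pow_iff_right (by norm_num)).1 h7
    unfold hsum
    have e1 : ∑ i ∈ range (A + 1), 1 / Dp w (2 ^ i) =
        ∑ a ∈ range (A + 1), (if (2 : ℝ) ^ a ≤ b then 1 / Dp w (2 ^ a) else 0) := by
      refine Finset.sum_congr rfl fun a ha => ?_
      rw [if_pos]
      have ha' : a ≤ A := by
        have := Finset.mem_range.1 ha
        omega
      exact le_trans (pow_le_pow_right₀ (by norm_num) ha') h2'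
    rw [e1]
    symm
    apply Finset.sum_subset (Finset.range_mono (by omega))
    intro a _ ha
    rw [if_neg]
    push Not
    have ha' : A + 1 ≤ a := by
      by_contra hc
      exact ha (Finset.mem_range.2 (by omega))
    exact lt_of_lt_of_le h5' (pow_le_pow_right₀ (by norm_num) ha')

lemma D_pos (h : Inv w K θ e L) (N : Num (epsL w K) θ e L) (i : ℕ) :
    0 < Dp w (2 ^ i) ∧ 1 / Dp w (2 ^ i) ≤ 1 / epsL w K := by
  have h1 := eps_le_Dp w K h.law.nonneg h.law.supp (2 ^ i) Nat.one_le_two_pow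
  have h2 := N.ε0
  exact ⟨by linarith, one_div_le_one_div_of_le h2 h1⟩

lemma sum_D_le (h : Inv w K θ e L) (N : Num (epsL w K) θ e L) (a c : ℕ) :
    ∑ i ∈ range (a + c), 1 / Dp w (2 ^ i) ≤
      ∑ i ∈ range a, 1 / Dp w (2 ^ i) + c / epsL w K := by
  rw [Finset.sum_range_add]
  have : ∑ x ∈ range c, 1 / Dp w (2 ^ (a + x)) ≤ ∑ x ∈ range c, 1 / epsL w K :=
    Finset.sum_le_sum fun i _ => (D_pos h N (a + i)).2
  rw [Finset.sum_const, Finset.card_range, nsmul_eq_mul, mul_one_div] at this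
  linarith

lemma two_pow_ge (L : ℕ) (hL : 1000 ≤ L) : 2 * (L : ℝ) ≤ 2 ^ L := by
  obtain ⟨l, rfl⟩ : ∃ l, L = l + 1 := ⟨L - 1, by omega⟩
  have h1 : l < 2 ^ l := Nat.lt_two_pow_self
  have h2 : l + 1 ≤ 2 ^ l := h1
  have h3 : ((l + 1 : ℕ) : ℝ) ≤ ((2 ^ l : ℕ) : ℝ) := by exact_mod_cast h2
  push_cast at h3 ⊢
  rw [pow_succ]
  linarith

/-- the bad event -/
lemma bad (h : Inv w K θ e L)
    (D : Dat (epsL w K) θ e L n u (ms w K u) (Fs w K u) β)
    (hPhi : 100 * (L : ℝ) ^ 2 ≤ Phi w K e) :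
    TM n (gam w K θ e L u (ms w K u)) (pp w u (ms w K u))
      (fun T => ¬ ((n : ℝ) * Phi w K e / 200 ≤ hei T * wid T ∧
        (hei T * wid T : ℝ) ≤ 200 * n * Phi w K e)) ≤
      Gam L (epsL w K) θ e u (ms w K u) β * (12 / L) := by
  have hm := D.m0
  have N := D.num
  have hε := D.num.ε0
  have hε1 := D.num.ε1
  have hθ := D.num.θ0
  have hL := D.num.L3
  have hb := D.b0
  have hG := D.Gam_pos
  have hL0 : (0 : ℝ) < L := by linarith
  have hn9 : (10 : ℝ) ^ 9 ≤ n := by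
    have h1 := D.n1
    have h2 := D.num.n9
    have : (0 : ℝ) < 2 ^ e := by positivity
    linarith
  have hn2 : 2 ≤ n := by
    have : (2 : ℝ) ≤ n := by linarith
    exact_mod_cast this
  have hn0 : (0 : ℝ) < n := by linarith
  have hβ0 : 0 < β := lt_of_lt_of_le (by positivity) D.β1
  have hθs : θ ≤ 1 / 10 ^ 9 := by
    rw [le_div_iff₀ (by norm_num)]
    have := D.num.θε
    linarith
  have hb900 : 10 ^ 9 ≤ epsL w K * 2 ^ e := by
    have h1 := D.num.tau
    have h2 : θ * (epsL w K * 2 ^ e) ≤ 1 / 10 ^ 9 * (epsL w K * 2 ^ e) :=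
      mul_le_mul_of_nonneg_right hθs hb.le
    linarith
  set K' := max K n with hK'
  have hKK : K ≤ K' := le_max_left _ _
  have hs := pp_sig h D K' hKK
  have hβe : β = ((n : ℝ) - 1) * (∑ k ∈ range K', (1 - (k : ℝ)) * pp w u (ms w K u) k) := by
    rw [pp_eps h.law K' hKK]
    exact D.βe
  have hε' := pp_eps (u := u) h.law K' hKK
  have hε'0 : 0 < ∑ k ∈ range K', (1 - (k : ℝ)) * pp w u (ms w K u) k := by
    rw [hε']
    have := D.F1
    exact div_pos (by linarith) (by linarith)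
  obtain ⟨A, hA1, hA2, hA3⟩ := exists_A h N
  -- H and Phi
  set H := hsum w e (epsL w K * 2 ^ e) with hH
  have hPhiH : Phi w K e = epsL w K * H := rfl
  set Φ := Phi w K e with hΦ
  have hHe : H = Φ / epsL w K := by rw [hPhiH]; field_simp
  have hΦ8 : 10 ^ 8 ≤ Φ := by
    refine le_trans ?_ hPhi
    nlinarith
  have hΦL : 100000 * (L : ℝ) ≤ Φ := by
    refine le_trans ?_ hPhi
    nlinarith
  have hΦH : Φ ≤ H := by
    rw [hHe, le_div_iff₀ hε]
    have : Φ * epsL w K ≤ Φ * 1 := mul_le_mul_of_nonneg_left hε1 (by linarith)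
    linarith
  have hH0 : 0 < H := by linarith
  have hc : ∀ c : ℕ, (c : ℝ) ≤ Φ / 2 → (c : ℝ) / epsL w K ≤ H / 2 := by
    intro c hc
    rw [div_le_iff₀ hε]
    have : H / 2 * epsL w K = Φ / 2 := by rw [hPhiH]; ring
    linarith
  have hAL : L ≤ A := by
    have h1 := sum_D_le h N 0 (A + 1)
    rw [zero_add, ← hA3] at h1
    simp only [Finset.range_zero, Finset.sum_empty, zero_add] at h1
    by_contra hcc
    have h2 : ((A + 1 : ℕ) : ℝ) ≤ Φ / 2 := by
      have h3 : A + 1 ≤ L := by omega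
      have h4 : ((A + 1 : ℕ) : ℝ) ≤ L := by exact_mod_cast h3
      linarith
    have := hc _ h2
    linarith
  -- heights
  have hlawp : pp w u (ms w K u) = tilt w K u := pp_eq
  have hhq : ∀ x, hq (pp w u (ms w K u)) K' x = hq (tilt w K u) K x := by
    intro x
    rw [hq_ext _ K K' hKK (fun k hk => pp_supp h.law k hk), hlawp]
  have he0 : (0 : ℝ) ≤ 1 / (e : ℝ) := by positivity
  have hflat : Fs w K (2 * u) ≤ 2 * epsL w K := by
    have hu3 := D.u3
    have hu0 := D.u0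
    refine (Inv.Fs_flat w K θ e L h (2 * u) (by linarith) (by linarith)).trans ?_
    apply mul_le_mul_of_nonneg_right _ hε.le
    have : 2 * u / θ ≤ 6 := by
      rw [div_le_iff₀ hθ]
      linarith
    linarith
  have hHB := fun a x => hq_bounds w K h.law h.reg (by have := h.w0; linarith)
    (by have := h.w1; linarith) hε u D.u0 (by have := D.u3; linarith) hflat a x
  set h2 := ⌈16 * H⌉₊ with hh2
  set h1 := ⌊H / 160⌋₊ with hh1
  have hh2a : 16 * H ≤ h2 := Nat.le_ceil _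
  have hh2b : (h2 : ℝ) < 16 * H + 1 := Nat.ceil_lt_add_one (by linarith)
  have hh1a : (h1 : ℝ) ≤ H / 160 := Nat.floor_le (by linarith)
  have hh1b : H / 160 < h1 + 1 := Nat.lt_floor_add_one _
  have hh21 : 1 ≤ h2 := by
    have : (0 : ℝ) < h2 := by linarith
    exact_mod_cast this
  -- upper bound for the probability of being tall
  have tall : 1 - hq (pp w u (ms w K u)) K' h2 ≤ 1 / 2 ^ (A + (2 * L + 4)) := by
    rw [hhq]
    apply (hHB (A + (2 * L + 4)) h2).1
    have e1 : A + (2 * L + 4) + 1 = (A + 1) + (2 * L + 4) := by ring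
    rw [e1]
    have h3 := sum_D_le h N (A + 1) (2 * L + 4)
    rw [← hA3] at h3
    have h4 := hc (2 * L + 4) (by push_cast; linarith)
    linarith
  have short : 1 / 2 ^ (A - L) ≤ 1 - hq (pp w u (ms w K u)) K' h1 := by
    rw [hhq]
    apply (hHB (A - L) h1).2
    have e1 : A + 1 = (A - L) + (L + 1) := by omega
    have h3 := sum_D_le h N (A - L) (L + 1)
    rw [← e1, ← hA3] at h3
    have h4 := hc (L + 1) (by push_cast; linarith)
    linarith
  have OT := oneType n K' hn2 (le_max_right _ _) (gam w K θ e L u (ms w K u))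
      (pp w u (ms w K u)) (gam_nonneg h hm) (pp_nonneg h.law hm) (pp_one h.law hm K' hKK)
      (Gam L (epsL w K) θ e u (ms w K u) β) D.gam_le _ _ β rfl hε'0 rfl hβe (by
        have := D.β1
        linarith) h1 h2 hh21
  refine le_trans (TM_mono n _ _ (gam_nonneg h hm) (pp_nonneg h.law hm) _ _ ?_) (OT.trans ?_)
  · -- the events
    intro T hT
    contrapose! hT
    obtain ⟨t1, t2, t3, t4⟩ := hT
    have hn : 0 < n * epsL w K := by positivity
    have hβ2 := D.β2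
    have hβ3 := D.β3
    have t3' : H / 160 ≤ hei T := by
      have : ((h1 + 1 : ℕ) : ℝ) ≤ hei T := by exact_mod_cast t3
      push_cast at this
      linarith
    have t4' : (hei T : ℝ) ≤ 33 * H := by
      have : (hei T : ℝ) ≤ ((2 * h2 : ℕ) : ℝ) := by exact_mod_cast t4
      push_cast at this
      linarith
    constructor
    · have h3 : H / 160 * (9 / 10 * (99 / 100 * (n * epsL w K))) ≤ hei T * wid T := by
        apply mul_le_mul t3' (by linarith) (by positivity) (by linarith)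
      have h4 : H / 160 * (9 / 10 * (99 / 100 * (n * epsL w K))) =
          891 / 160000 * (n * Φ) := by rw [hPhiH]; ring
      rw [h4] at h3
      have h5 : 0 < n * Φ := by positivity
      linarith
    · have h3 : (hei T : ℝ) * wid T ≤ 33 * H * (4 * (209 / 200 * (n * epsL w K))) := by
        apply mul_le_mul t4' (by linarith) (by positivity) (by positivity)
      have h4 : 33 * H * (4 * (209 / 200 * (n * epsL w K))) = 33 * 4 * 209 / 200 * (n * Φ) := by
        rw [hPhiH]; ring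
      rw [h4] at h3
      have h5 : 0 < n * Φ := by positivity
      linarith
  · apply mul_le_mul_of_nonneg_left _ hG.le
    have hM : 2 * (L : ℝ) ≤ 2 ^ L := two_pow_ge L h.L_ge
    have hβ1 := D.β1
    have hβ3 := D.β3
    have r1 : 500 * ((n : ℝ) * (∑ k ∈ range K', ((k : ℝ) - 1) ^ 2 * pp w u (ms w K u) k) /
        β ^ 2) ≤ 7 / L := by
      have := D.err1 _ hs
      have e1 : (7 : ℝ) / L = 500 * (7 / (500 * L)) := by field_simp
      rw [e1]
      linarith
    have r2 : 4 * β * (1 - hq (pp w u (ms w K u)) K' h2) ≤ 2 / L := by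
      have h3 : 4 * β * (1 - hq (pp w u (ms w K u)) K' h2) ≤
          4 * β * (1 / 2 ^ (A + (2 * L + 4))) := by gcongr
      refine h3.trans ?_
      have h4 : (n : ℝ) * epsL w K ≤ 5 * (2 ^ e * 2 ^ L) * epsL w K :=
        mul_le_mul_of_nonneg_right D.n2 hε.le
      have h5 : 4 * β ≤ 21 * (2 ^ L * (epsL w K * 2 ^ e)) := by
        have h6 : 5 * (2 ^ e * 2 ^ L) * epsL w K = 5 * (2 ^ L * (epsL w K * 2 ^ e)) := by ring
        rw [h6] at h4
        have h7 : 0 < 2 ^ L * (epsL w K * 2 ^ e) := by positivity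
        linarith
      have h8 : (2 : ℝ) ^ (A + (2 * L + 4)) = 2 ^ (A + 1) * (8 * (2 ^ L * 2 ^ L)) := by
        ring
      have h9 : 2 * (L : ℝ) * (8 * (2 ^ L * (epsL w K * 2 ^ e))) ≤
          2 ^ (A + 1) * (8 * (2 ^ L * 2 ^ L)) := by
        calc 2 * (L : ℝ) * (8 * (2 ^ L * (epsL w K * 2 ^ e))) ≤
            2 ^ L * (8 * (2 ^ L * 2 ^ (A + 1))) := by gcongr
          _ = 2 ^ (A + 1) * (8 * (2 ^ L * 2 ^ L)) := by ring
      rw [mul_one_div, h8, div_le_div_iff₀ (by positivity) hL0]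
      have h10 : 4 * β * L ≤ 21 * (2 ^ L * (epsL w K * 2 ^ e)) * L :=
        mul_le_mul_of_nonneg_right h5 hL0.le
      have h11 : 0 < 2 ^ L * (epsL w K * 2 ^ e) * L := by positivity
      linarith
    have r3 : 1 / ((∑ k ∈ range K', (1 - (k : ℝ)) * pp w u (ms w K u) k) * h2) ≤ 1 / L := by
      apply one_div_le_one_div_of_le hL0
      rw [hε']
      have h3 : epsL w K / 2 ≤ Fs w K u / ms w K u := by
        rw [le_div_iff₀ (by linarith)]
        have h4 := D.F1
        have h5 : epsL w K / 2 * ms w K u ≤ epsL w K / 2 * 2 := by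
          apply mul_le_mul_of_nonneg_left _ (by linarith)
          have := D.m2
          linarith
        linarith
      calc (L : ℝ) ≤ epsL w K / 2 * (16 * H) := by
            have : epsL w K / 2 * (16 * H) = 8 * Φ := by rw [hPhiH]; ring
            rw [this]; linarith
        _ ≤ Fs w K u / ms w K u * h2 := by
            apply mul_le_mul h3 hh2a (by positivity) (by
              have := D.F1
              exact div_nonneg (by linarith) (by linarith))
    have r4 : (hq (pp w u (ms w K u)) K' h1) ^ ⌊β / 2⌋₊ ≤ 1 / L := by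
      have hq0 := hq_nonneg (pp w u (ms w K u)) K' (pp_nonneg h.law hm) h1
      have h3 : hq (pp w u (ms w K u)) K' h1 ≤ Real.exp (-(1 / 2 ^ (A - L))) := by
        have := Real.add_one_le_exp (-(1 / 2 ^ (A - L)) : ℝ)
        linarith
      have h4 : (hq (pp w u (ms w K u)) K' h1) ^ ⌊β / 2⌋₊ ≤
          (Real.exp (-(1 / 2 ^ (A - L)))) ^ ⌊β / 2⌋₊ := pow_le_pow_left₀ hq0 h3 _
      refine h4.trans ?_
      rw [← Real.exp_nat_mul]
      have h5 : (L : ℝ) ≤ ⌊β / 2⌋₊ * (1 / 2 ^ (A - L)) := by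
        have h6 : β / 2 < ⌊β / 2⌋₊ + 1 := Nat.lt_floor_add_one _
        have h7 : (1 / 2 : ℝ) * 2 ^ A ≤ ⌊β / 2⌋₊ := by linarith
        have h8 : (2 : ℝ) ^ A = 2 ^ (A - L) * 2 ^ L := by
          rw [← pow_add]
          congr 1
          omega
        have h9 : (0 : ℝ) < 2 ^ (A - L) := by positivity
        rw [mul_one_div, le_div_iff₀ h9]
        refine le_trans ?_ h7
        rw [h8]
        have := mul_le_mul_of_nonneg_left hM h9.le
        linarith
      have h6 : Real.exp (⌊β / 2⌋₊ * -(1 / 2 ^ (A - L)) : ℝ) ≤ Real.exp (-(L : ℝ)) := by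
        apply Real.exp_le_exp.2
        linarith
      refine h6.trans ?_
      rw [Real.exp_neg, ← one_div]
      apply one_div_le_one_div_of_le hL0
      have := Real.add_one_le_exp (L : ℝ)
      linarith
    have e5 : (12 : ℝ) / L = 12 * (1 / L) := by ring
    have e7 : (7 : ℝ) / L = 7 * (1 / L) := by ring
    have e2 : (2 : ℝ) / L = 2 * (1 / L) := by ring
    rw [e5]
    rw [e7] at r1
    rw [e2] at r2
    have : (0 : ℝ) < 1 / L := by positivity
    linarith


/-- a second marked vertex -/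
lemma addsub (h : Inv w K θ e L)
    (D : Dat (epsL w K) θ e L n u (ms w K u) (Fs w K u) β) :
    TM n (gam w K θ e L u (ms w K u))
      (fun k => pp w u (ms w K u) k + gam w K θ e L u (ms w K u) k) (fun _ => True) -
    TM n (gam w K θ e L u (ms w K u)) (pp w u (ms w K u)) (fun _ => True) ≤
      Gam L (epsL w K) θ e u (ms w K u) β * (1 / L) := by
  have hm := D.m0
  have hL := D.num.L3
  have hb := D.b0
  have hG := D.Gam_pos
  have hL0 : (0 : ℝ) < L := by linarith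
  have hn9 : (10 : ℝ) ^ 9 ≤ n := by
    have h1 := D.n1
    have h2 := D.num.n9
    have : (0 : ℝ) < 2 ^ e := by positivity
    linarith
  have hn1 : 1 ≤ n := by
    have : (1 : ℝ) ≤ n := by linarith
    exact_mod_cast this
  have hn0 : (0 : ℝ) < n := by linarith
  set K' := max K n with hK'
  have hKK : K ≤ K' := le_max_left _ _
  obtain ⟨c1, -, -, c4, c5, -, -⟩ := Inv.col_facts w K θ e L h
  have hgle : ∀ k, gam w K θ e L u (ms w K u) k ≤ phCol w K θ e L k := by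
    intro k
    unfold gam
    rcases Nat.eq_zero_or_pos k with hk | hk
    · rw [c4 k (by rw [hk]; push_cast; exact hb.le), mul_zero]
    · have h1 : (ms w K u)⁻¹ ≤ 1 := inv_le_one_of_one_le₀ hm
      have h2 : Real.exp (-u * ((k : ℝ) - 1)) ≤ 1 := by
        rw [Real.exp_le_one_iff]
        have h3 : (1 : ℝ) ≤ k := by exact_mod_cast hk
        have h4 := mul_nonneg D.u0 (sub_nonneg.2 h3)
        linarith
      have h3 : (ms w K u)⁻¹ * Real.exp (-u * ((k : ℝ) - 1)) ≤ 1 * 1 :=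
        mul_le_mul h1 h2 (by positivity) (by norm_num)
      have h4 := mul_le_mul_of_nonneg_right h3 (c1 k)
      linarith
  have key := TM_add_sub_le n K' hn1 (le_max_right _ _) (pp w u (ms w K u))
    (gam w K θ e L u (ms w K u)) (pp_nonneg h.law hm) (gam_nonneg h hm)
    (Gam L (epsL w K) θ e u (ms w K u) β) (1 / (8 * L * 2 ^ (e + L))) D.gam_le
    (pp_one h.law hm K' hKK) ((Finset.sum_le_sum fun k _ => hgle k).trans (c5 K'))
  refine key.trans ?_
  apply mul_le_mul_of_nonneg_left _ hG.le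
  set Q : ℝ := 1 / (8 * L * 2 ^ (e + L)) with hQ
  have hQ0 : 0 < Q := by positivity
  have h1 : (1 + Q) ^ (n - 1) ≤ Real.exp (5 / (8 * L)) := by
    have h2 : 1 + Q ≤ Real.exp Q := by
      have := Real.add_one_le_exp Q
      linarith
    refine (pow_le_pow_left₀ (by positivity) h2 _).trans ?_
    rw [← Real.exp_nat_mul]
    apply Real.exp_le_exp.2
    have h3 : ((n - 1 : ℕ) : ℝ) ≤ n := by exact_mod_cast Nat.sub_le n 1
    have h4 : (n : ℝ) ≤ 5 * 2 ^ (e + L) := by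
      rw [pow_add]
      exact D.n2
    calc ((n - 1 : ℕ) : ℝ) * Q ≤ 5 * 2 ^ (e + L) * Q := by
          apply mul_le_mul_of_nonneg_right (h3.trans h4) hQ0.le
      _ = 5 / (8 * L) := by
          rw [hQ]
          field_simp
  set x : ℝ := 5 / (8 * L) with hx
  have hx1 : x ≤ 1 / 1000 := by
    rw [hx, div_le_div_iff₀ (by positivity) (by norm_num)]
    linarith
  have hx0 : 0 < x := by positivity
  have h2 : Real.exp x ≤ 1 + 11 / 10 * x := by
    have h3 := Real.add_one_le_exp (-x)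
    have h4 : Real.exp x * Real.exp (-x) = 1 := by rw [← Real.exp_add]; simp
    have h5 := Real.exp_pos x
    have h6 : Real.exp x * (1 - x) ≤ 1 := by nlinarith
    have h7 : 1 ≤ (1 + 11 / 10 * x) * (1 - x) := by nlinarith
    have h8 : 0 < 1 - x := by linarith
    exact le_of_mul_le_mul_right (h6.trans h7) h8
  have h3 : 11 / 10 * x ≤ 1 / L := by
    rw [hx, mul_div_assoc', div_le_div_iff₀ (by positivity) hL0]
    linarith
  linarith

end fin

end N2

open N2

/-- N2 (uses oneType, oneType_lower, hq_bounds, A1, A2, N1) -/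
theorem Inv.phase (w : ℕ → ℝ) (K : ℕ) (θ : ℝ) (e L : ℕ) (h : Inv w K θ e L)
    (hPhi : 100 * (L : ℝ) ^ 2 ≤ Phi w K e) (n : ℕ) (hn1 : 13 * 2 ^ e ≤ 10 * n)
    (hn2 : n ≤ 5 * 2 ^ (e + L)) :
    1 / 2 * (qc L (epsL w K) (epsL w K * 2 ^ e) * Real.exp (-4 * (θ * (epsL w K * 2 ^ e)))) ≤
      TM n (phCol w K θ e L) w (fun _ => True) ∧
    (5 * 2 ^ e ≤ n → 1 / 2 * qc L (epsL w K) (epsL w K * 2 ^ e) ≤
      TM n (phCol w K θ e L) w (fun _ => True)) ∧
    TM n (phCol w K θ e L) w (fun T => ¬ ((n : ℝ) * Phi w K e / 200 ≤ hei T * wid T ∧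
        (hei T * wid T : ℝ) ≤ 200 * n * Phi w K e)) ≤
      25 / L * TM n (phCol w K θ e L) w (fun _ => True) ∧
    TM n (phCol w K θ e L) (fun k => w k + phCol w K θ e L k) (fun _ => True) -
        TM n (phCol w K θ e L) w (fun _ => True) ≤
      2 / L * TM n (phCol w K θ e L) w (fun _ => True) := by
  obtain ⟨u, hu0, hu3, hu, huz⟩ := choose_u h n hn1
  have D := dat h n hn1 hn2 u hu0 hu3 hu
  set β := ((n : ℝ) - 1) * (Fs w K u / ms w K u) with hβ
  have hm := D.m0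
  have hm0 : 0 < ms w K u := by linarith
  have hL := D.num.L3
  have hL0 : (0 : ℝ) < L := by linarith
  have hb := D.b0
  have hq := qc_pos L (epsL w K) (epsL w K * 2 ^ e) D.num.L3 D.num.ε0 D.b0
  have hn9 : (10 : ℝ) ^ 9 ≤ n := by
    have h1 := D.n1
    have h2 := D.num.n9
    have : (0 : ℝ) < 2 ^ e := by positivity
    linarith
  have hn1' : 1 ≤ n := by
    have : (1 : ℝ) ≤ n := by linarith
    exact_mod_cast this
  have low := lower h D
  have bd := bad h D hPhi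
  have as := addsub h D
  have hG := D.Gam_pos
  -- scaling
  have sc : ∀ A, TM n (gam w K θ e L u (ms w K u)) (pp w u (ms w K u)) A =
      ((ms w K u)⁻¹) ^ n * Real.exp u * TM n (phCol w K θ e L) w A := fun A =>
    TM_scale n (phCol w K θ e L) w (ms w K u)⁻¹ u A
  have sc2 : TM n (gam w K θ e L u (ms w K u))
      (fun k => pp w u (ms w K u) k + gam w K θ e L u (ms w K u) k) (fun _ => True) =
      ((ms w K u)⁻¹) ^ n * Real.exp u *
        TM n (phCol w K θ e L) (fun k => w k + phCol w K θ e L k) (fun _ => True) := by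
    rw [← TM_scale n (phCol w K θ e L) (fun k => w k + phCol w K θ e L k) (ms w K u)⁻¹ u]
    congr 1
    funext k
    unfold pp gam
    ring
  rw [sc] at low bd as
  rw [sc2] at as
  have pe := D.pow_ge hn1'
  set c0 : ℝ := ((ms w K u)⁻¹) ^ n * Real.exp u with hc0
  have hc0p : 0 < c0 := by positivity
  set X := TM n (phCol w K θ e L) w (fun _ => True) with hX
  have hnn : (ms w K u)⁻¹ ^ n = (ms w K u)⁻¹ * ((ms w K u) ^ (n - 1))⁻¹ := by
    obtain ⟨k, rfl⟩ : ∃ k, n = k + 1 := ⟨n - 1, by omega⟩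
    rw [pow_succ', Nat.add_sub_cancel, inv_pow]
  refine ⟨?_, ?_, ?_, ?_⟩
  · -- first claim
    have h1 : c0 * (qc L (epsL w K) (epsL w K * 2 ^ e) *
        Real.exp (-4 * (θ * (epsL w K * 2 ^ e)))) ≤ Gam L (epsL w K) θ e u (ms w K u) β := by
      have h2 : ((ms w K u) ^ (n - 1))⁻¹ ≤
          (Real.exp (soft θ (epsL w K * 2 ^ e) β + u * β - 4 * (θ * (epsL w K * 2 ^ e))))⁻¹ :=
        inv_anti₀ (Real.exp_pos _) pe
      rw [← Real.exp_neg] at h2
      unfold Gam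
      rw [hc0, hnn]
      calc (ms w K u)⁻¹ * ((ms w K u) ^ (n - 1))⁻¹ * Real.exp u *
            (qc L (epsL w K) (epsL w K * 2 ^ e) * Real.exp (-4 * (θ * (epsL w K * 2 ^ e)))) ≤
          (ms w K u)⁻¹ * (Real.exp (-(soft θ (epsL w K * 2 ^ e) β + u * β -
            4 * (θ * (epsL w K * 2 ^ e))))) * Real.exp u *
            (qc L (epsL w K) (epsL w K * 2 ^ e) *
              Real.exp (-4 * (θ * (epsL w K * 2 ^ e)))) := by gcongr
        _ = (ms w K u)⁻¹ * (qc L (epsL w K) (epsL w K * 2 ^ e) *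
            (Real.exp (-(soft θ (epsL w K * 2 ^ e) β + u * β -
            4 * (θ * (epsL w K * 2 ^ e)))) * Real.exp u *
              Real.exp (-4 * (θ * (epsL w K * 2 ^ e))))) := by ring
        _ = (ms w K u)⁻¹ * (qc L (epsL w K) (epsL w K * 2 ^ e) *
            Real.exp (-(soft θ (epsL w K * 2 ^ e) β + u * β) + u)) := by
          rw [← Real.exp_add, ← Real.exp_add]
          congr 3
          ring
    have h3 : c0 * (1 / 2 * (qc L (epsL w K) (epsL w K * 2 ^ e) *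
        Real.exp (-4 * (θ * (epsL w K * 2 ^ e))))) ≤ c0 * X := by linarith
    exact le_of_mul_le_mul_left h3 hc0p
  · -- second claim
    intro hn5
    have hn5' : (5 : ℝ) * 2 ^ e ≤ n := by exact_mod_cast hn5
    have hu00 : u = 0 := by
      apply huz
      have h1 : (1 : ℝ) ≤ 2 ^ e := one_le_pow₀ (by norm_num)
      have h2 : (4 * 2 ^ e) * epsL w K ≤ ((n : ℝ) - 1) * epsL w K := by
        apply mul_le_mul_of_nonneg_right _ D.num.ε0.le
        linarith
      linarith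
    have hmax : max (4 * (epsL w K * 2 ^ e) - β) 0 = 0 := by
      have h1 : θ / (epsL w K * 2 ^ e) * max (4 * (epsL w K * 2 ^ e) - β) 0 = 0 := by
        rw [← hu, hu00]
      have h2 : 0 < θ / (epsL w K * 2 ^ e) := div_pos D.num.θ0 hb
      rcases mul_eq_zero.1 h1 with h3 | h3
      · exact absurd h3 h2.ne'
      · exact h3
    have hsoft : soft θ (epsL w K * 2 ^ e) β = 0 := by
      unfold soft
      rw [hmax]
      ring
    have h1 : c0 * qc L (epsL w K) (epsL w K * 2 ^ e) ≤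
        Gam L (epsL w K) θ e u (ms w K u) β := by
      unfold Gam
      rw [hsoft, hc0, hnn]
      have h2 : ((ms w K u) ^ (n - 1))⁻¹ ≤ 1 := inv_le_one_of_one_le₀ (one_le_pow₀ hm)
      have h3 : -(0 + u * β) + u = 0 := by rw [hu00]; ring
      rw [h3, hu00, Real.exp_zero, mul_one, mul_one]
      rw [hu00] at h2
      have h4 : 0 < (ms w K 0)⁻¹ := by
        rw [ms_zero h.law]; norm_num
      calc (ms w K 0)⁻¹ * ((ms w K 0) ^ (n - 1))⁻¹ * qc L (epsL w K) (epsL w K * 2 ^ e) ≤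
          (ms w K 0)⁻¹ * 1 * qc L (epsL w K) (epsL w K * 2 ^ e) := by gcongr
        _ = (ms w K 0)⁻¹ * qc L (epsL w K) (epsL w K * 2 ^ e) := by ring
    have h3 : c0 * (1 / 2 * qc L (epsL w K) (epsL w K * 2 ^ e)) ≤ c0 * X := by linarith
    exact le_of_mul_le_mul_left h3 hc0p
  · -- bad event
    have h1 : Gam L (epsL w K) θ e u (ms w K u) β * (12 / L) ≤ (2 * (c0 * X)) * (12 / L) := by
      apply mul_le_mul_of_nonneg_right _ (by positivity)
      linarith
    have hX0 : 0 ≤ X := by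
      have : 0 < c0 * X := by linarith
      exact ((mul_pos_iff_of_pos_left hc0p).1 this).le
    have h2 := bd.trans h1
    have h3 : 2 * (c0 * X) * (12 / L) ≤ c0 * (25 / L * X) := by
      have e1 : 2 * (c0 * X) * (12 / L) = 24 * (c0 * X / L) := by ring
      have e2 : c0 * (25 / L * X) = 25 * (c0 * X / L) := by ring
      rw [e1, e2]
      have : 0 ≤ c0 * X / L := by positivity
      linarith
    exact le_of_mul_le_mul_left (h2.trans h3) hc0p
  · have h1 : Gam L (epsL w K) θ e u (ms w K u) β * (1 / L) ≤ (2 * (c0 * X)) * (1 / L) := by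
      apply mul_le_mul_of_nonneg_right _ (by positivity)
      linarith
    have h2 := as.trans h1
    have h3 : 2 * (c0 * X) * (1 / L) = c0 * (2 / L * X) := by ring
    rw [h3, ← mul_sub] at h2
    exact le_of_mul_le_mul_left h2 hc0p

end HW
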