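import Pool.Agent.Helper49.HW.Defs

/-! Block PC: the expected number of nonnegative suffixes. -/

open Finset

namespace HW

namespace PC

lemma E_congr (p : ℕ → ℝ) (K : ℕ) : ∀ (N : ℕ) (F G : List ℕ → ℝ),
    (∀ y : List ℕ, y.length = N → F y = G y) → E p K N F = E p K N G := by
  intro N
  induction N with
  | zero => intro F G h; exact h [] rfl
  | succ N ih =>
    intro F G h
    simp only [E]
    refine Finset.sum_congr rfl fun a _ => ?_
    rw [ih _ _ fun y hy => h (a :: y) (by simp [hy])]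

lemma E_nonneg (p : ℕ → ℝ) (K : ℕ) (hp : ∀ k, 0 ≤ p k) : ∀ (N : ℕ) (F : List ℕ → ℝ),
    (∀ y : List ℕ, y.length = N → 0 ≤ F y) → 0 ≤ E p K N F := by
  intro N
  induction N with
  | zero => intro F h; exact h [] rfl
  | succ N ih =>
    intro F h
    simp only [E]
    exact Finset.sum_nonneg fun a _ => mul_nonneg (hp a) (ih _ fun y hy => h (a :: y) (by simp [hy]))

lemma E_add (p : ℕ → ℝ) (K : ℕ) : ∀ (N : ℕ) (F G : List ℕ → ℝ),
    E p K N (fun y => F y + G y) = E p K N F + E p K N G := by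
  intro N
  induction N with
  | zero => intro F G; rfl
  | succ N ih =>
    intro F G
    simp only [E]
    rw [← Finset.sum_add_distrib]
    refine Finset.sum_congr rfl fun a _ => ?_
    rw [ih, mul_add]

/-- all the prefix sums started at `r` are nonnegative -/
def good (r : ℤ) (y : List ℕ) : Prop := ∀ j ≤ y.length, 0 ≤ r + stp (y.take j)

lemma stp_cons (a : ℕ) (l : List ℕ) : stp (a :: l) = (a : ℤ) - 1 + stp l := by
  simp [stp]

lemma good_nil (r : ℤ) : good r [] ↔ 0 ≤ r := by
  simp [good, stp]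

lemma good_cons (r : ℤ) (a : ℕ) (l : List ℕ) :
    good r (a :: l) ↔ 0 ≤ r ∧ good (r + a - 1) l := by
  constructor
  · intro h
    refine ⟨by simpa [stp] using h 0 (by simp), fun j hj => ?_⟩
    have := h (j + 1) (by simpa using hj)
    rw [List.take_succ_cons, stp_cons] at this
    linarith
  · rintro ⟨h0, h⟩ j hj
    rcases j with _ | j
    · simpa [stp] using h0
    · have := h j (by simpa using hj)
      rw [List.take_succ_cons, stp_cons]
      linarith

open Classical in
/-- probability that all prefix sums are nonnegative -/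
noncomputable def PP (p : ℕ → ℝ) (K t : ℕ) (r : ℤ) : ℝ :=
  E p K t (fun y => if good r y then 1 else 0)

open Classical in
/-- expectation of `1 +` the final value -/
noncomputable def AA (p : ℕ → ℝ) (K t : ℕ) (r : ℤ) : ℝ :=
  E p K t (fun y => if good r y then (1 + r + stp y : ℝ) else 0)

lemma E_zero (p : ℕ → ℝ) (K : ℕ) : ∀ N : ℕ, E p K N (fun _ => 0) = 0 := by
  intro N
  induction N with
  | zero => rfl
  | succ N ih => simp [E, ih]

lemma PP_neg (p : ℕ → ℝ) (K t : ℕ) : PP p K t (-1) = 0 := by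
  unfold PP
  rw [E_congr p K t _ (fun _ => 0), E_zero]
  intro y _
  rw [if_neg]
  intro h
  have := h 0 (Nat.zero_le _)
  simp [stp] at this

lemma AA_neg (p : ℕ → ℝ) (K t : ℕ) : AA p K t (-1) = 0 := by
  unfold AA
  rw [E_congr p K t _ (fun _ => 0), E_zero]
  intro y _
  rw [if_neg]
  intro h
  have := h 0 (Nat.zero_le _)
  simp [stp] at this

lemma PP_zero (p : ℕ → ℝ) (K : ℕ) {r : ℤ} (hr : 0 ≤ r) : PP p K 0 r = 1 := by
  unfold PP
  simp only [E]
  rw [if_pos ((good_nil r).2 hr)]

lemma PP_succ (p : ℕ → ℝ) (K t : ℕ) {r : ℤ} (hr : 0 ≤ r) :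
    PP p K (t + 1) r = ∑ a ∈ range K, p a * PP p K t (r + a - 1) := by
  classical
  unfold PP
  simp only [E]
  refine Finset.sum_congr rfl fun a _ => ?_
  congr 1
  refine E_congr p K t _ _ fun y _ => ?_
  exact if_congr (by rw [good_cons]; simp [hr]) rfl rfl

lemma AA_succ (p : ℕ → ℝ) (K t : ℕ) {r : ℤ} (hr : 0 ≤ r) :
    AA p K (t + 1) r = ∑ a ∈ range K, p a * AA p K t (r + a - 1) := by
  classical
  unfold AA
  simp only [E]
  refine Finset.sum_congr rfl fun a _ => ?_
  congr 1
  refine E_congr p K t _ _ fun y _ => ?_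
  refine if_congr (by rw [good_cons]; simp [hr]) ?_ rfl
  rw [stp_cons]
  push_cast
  ring

lemma AA_eq (p : ℕ → ℝ) (K : ℕ) (hp1 : ∑ k ∈ range K, p k = 1)
    (ε : ℝ) (hε : ε = ∑ k ∈ range K, (1 - (k : ℝ)) * p k) :
    ∀ (t : ℕ) (r : ℤ), -1 ≤ r → AA p K t r = 1 + r - ε * ∑ s ∈ range t, PP p K s r := by
  have hmean : ∑ k ∈ range K, p k * (k : ℝ) = 1 - ε := by
    have h1 : ∑ k ∈ range K, (1 - (k : ℝ)) * p k =
        ∑ k ∈ range K, p k - ∑ k ∈ range K, p k * (k : ℝ) := by
      rw [← Finset.sum_sub_distrib]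
      refine Finset.sum_congr rfl fun a _ => ?_
      ring
    rw [hε, h1, hp1]
    ring
  intro t
  induction t with
  | zero =>
    intro r hr
    rcases eq_or_lt_of_le hr with rfl | hr
    · rw [AA_neg]
      simp
    · unfold AA
      simp only [E]
      rw [if_pos ((good_nil r).2 (by omega))]
      simp [stp]
  | succ t ih =>
    intro r hr
    rcases eq_or_lt_of_le hr with rfl | hr
    · rw [AA_neg]
      simp [PP_neg]
    · have hr0 : 0 ≤ r := by omega
      rw [AA_succ p K t hr0, Finset.sum_range_succ', PP_zero p K hr0]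
      have h1 : ∀ a ∈ range K, p a * AA p K t (r + a - 1) =
          p a * r + p a * a - ε * ∑ s ∈ range t, p a * PP p K s (r + a - 1) := by
        intro a _
        rw [ih (r + a - 1) (by omega), ← Finset.mul_sum]
        push_cast
        ring
      rw [Finset.sum_congr rfl h1, Finset.sum_sub_distrib, Finset.sum_add_distrib, hmean,
        ← Finset.sum_mul, hp1, ← Finset.mul_sum, Finset.sum_comm]
      have h2 : ∀ s ∈ range t, ∑ a ∈ range K, p a * PP p K s (r + a - 1) = PP p K (s + 1) r :=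
        fun s _ => (PP_succ p K s hr0).symm
      rw [Finset.sum_congr rfl h2]
      ring

lemma AA_nonneg (p : ℕ → ℝ) (K : ℕ) (hp : ∀ k, 0 ≤ p k) (t : ℕ) (r : ℤ) : 0 ≤ AA p K t r := by
  refine E_nonneg p K hp t _ fun y _ => ?_
  split_ifs with h
  · have h1 := h y.length le_rfl
    rw [List.take_length] at h1
    have h2 : (0 : ℝ) ≤ r + stp y := by exact_mod_cast h1
    linarith
  · exact le_rfl

open Classical in
lemma nns_cons (a : ℕ) (l : List ℕ) :
    nns (a :: l) = nns l + (if good 0 (a :: l) then 1 else 0) := by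
  unfold nns
  rw [Finset.card_filter, Finset.card_filter, List.length_cons, Finset.sum_range_succ']
  congr 1
  refine if_congr ?_ rfl rfl
  rw [List.drop_zero]
  unfold good
  simp only [zero_add]

open Classical in
lemma E_nns_eq (p : ℕ → ℝ) (K : ℕ) (hp1 : ∑ k ∈ range K, p k = 1) : ∀ N : ℕ,
    E p K N (fun y => (nns y : ℝ)) = ∑ t ∈ range N, PP p K (t + 1) 0 := by
  intro N
  induction N with
  | zero => simp [E, nns]
  | succ N ih =>
    rw [Finset.sum_range_succ, ← ih]
    have h1 : E p K (N + 1) (fun y => (nns y : ℝ)) =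
        ∑ a ∈ range K, p a * (E p K N (fun y => (nns y : ℝ)) +
          E p K N (fun y => (if good 0 (a :: y) then 1 else 0 : ℝ))) := by
      simp only [E]
      refine Finset.sum_congr rfl fun a _ => ?_
      rw [← E_add]
      congr 1
      refine E_congr p K N _ _ fun y _ => ?_
      rw [nns_cons]
      push_cast
      rfl
    rw [h1]
    simp only [mul_add]
    rw [Finset.sum_add_distrib, ← Finset.sum_mul, hp1, one_mul]
    rfl

end PC

/-- P5 -/
theorem E_nns (p : ℕ → ℝ) (K N : ℕ) (hp : ∀ k, 0 ≤ p k) (hp1 : ∑ k ∈ range K, p k = 1)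
    (ε : ℝ) (hε : ε = ∑ k ∈ range K, (1 - (k : ℝ)) * p k) (hε0 : 0 < ε) :
    E p K N (fun y => (nns y : ℝ)) ≤ 1 / ε := by
  rw [PC.E_nns_eq p K hp1 N, le_div_iff₀ hε0]
  have h1 := PC.AA_eq p K hp1 ε hε (N + 1) 0 (by norm_num)
  have h2 := PC.AA_nonneg p K hp (N + 1) 0
  rw [Finset.sum_range_succ', PC.PP_zero p K le_rfl] at h1
  rw [h1] at h2
  push_cast at h2
  nlinarith

end HW
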