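import Pool.Agent.Helper55.HW.CD
import Pool.Agent.Helper76.HW.CE
import Pool.Agent.Helper67.HW.CG
import Pool.Agent.Helper92.HW.PA
import Pool.Agent.Helper9.HW.PB
import Pool.Agent.Helper87.HW.PC

/-! Block OT: one type of trees. -/

open Finset

namespace HW

namespace OT

open PC

lemma E_mono (p : ℕ → ℝ) (K : ℕ) (hp : ∀ k, 0 ≤ p k) : ∀ (N : ℕ) (F G : List ℕ → ℝ),
    (∀ y : List ℕ, y.length = N → F y ≤ G y) → E p K N F ≤ E p K N G := by
  intro N
  induction N with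
  | zero => intro F G h; exact h [] rfl
  | succ N ih =>
    intro F G h
    simp only [E]
    exact Finset.sum_le_sum fun a _ =>
      mul_le_mul_of_nonneg_left (ih _ _ fun y hy => h (a :: y) (by simp [hy])) (hp a)

lemma E_mul (p : ℕ → ℝ) (K : ℕ) (c : ℝ) : ∀ (N : ℕ) (F : List ℕ → ℝ),
    E p K N (fun y => c * F y) = c * E p K N F := by
  intro N
  induction N with
  | zero => intro F; rfl
  | succ N ih =>
    intro F
    simp only [E]
    rw [Finset.mul_sum]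
    refine Finset.sum_congr rfl fun a _ => ?_
    rw [ih]
    ring

lemma E_one (p : ℕ → ℝ) (K : ℕ) (hp1 : ∑ k ∈ range K, p k = 1) : ∀ N : ℕ,
    E p K N (fun _ => 1) = 1 := by
  intro N
  induction N with
  | zero => rfl
  | succ N ih => simp only [E, ih, mul_one, hp1]

lemma E_sum (p : ℕ → ℝ) (K N : ℕ) (s : Finset ℕ) (f : ℕ → List ℕ → ℝ) :
    E p K N (fun y => ∑ k ∈ s, f k y) = ∑ k ∈ s, E p K N (f k) := by
  classical
  induction s using Finset.induction_on with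
  | empty => simp [E_zero]
  | insert a s ha ih =>
    rw [Finset.sum_insert ha, ← ih, ← E_add]
    refine E_congr p K N _ _ fun y _ => ?_
    rw [Finset.sum_insert ha]

lemma Pr_mono (p : ℕ → ℝ) (K N : ℕ) (hp : ∀ k, 0 ≤ p k) (A B : List ℕ → Prop)
    (h : ∀ y : List ℕ, y.length = N → A y → B y) : Pr p K N A ≤ Pr p K N B := by
  classical
  refine E_mono p K hp N _ _ fun y hy => ?_
  split_ifs with h1 h2 h2
  · exact le_rfl
  · exact absurd (h y hy h1) h2
  · exact zero_le_one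
  · exact le_rfl

lemma Pr_nonneg (p : ℕ → ℝ) (K N : ℕ) (hp : ∀ k, 0 ≤ p k) (A : List ℕ → Prop) :
    0 ≤ Pr p K N A := by
  classical
  refine E_nonneg p K hp N _ fun y _ => ?_
  split_ifs
  · exact zero_le_one
  · exact le_rfl

lemma Pr_or_le (p : ℕ → ℝ) (K N : ℕ) (hp : ∀ k, 0 ≤ p k) (A B : List ℕ → Prop) :
    Pr p K N (fun y => A y ∨ B y) ≤ Pr p K N A + Pr p K N B := by
  classical
  unfold Pr
  rw [← E_add]
  refine E_mono p K hp N _ _ fun y _ => ?_
  by_cases hA : A y <;> by_cases hB : B y <;> simp [hA, hB]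

lemma symsum_nonneg {γ p : ℕ → ℝ} (hγ : ∀ k, 0 ≤ γ k) (hp : ∀ k, 0 ≤ p k) :
    ∀ l : List ℕ, 0 ≤ symsum γ p l := by
  intro l
  induction l with
  | nil => exact le_rfl
  | cons a l ih =>
    have h1 : 0 ≤ (l.map p).prod := List.prod_nonneg (by
      intro x hx
      obtain ⟨k, -, rfl⟩ := List.mem_map.1 hx
      exact hp k)
    exact add_nonneg (mul_nonneg (hγ a) h1) (mul_nonneg (hp a) ih)

lemma TM_mono (n : ℕ) {γ p : ℕ → ℝ} (hγ : ∀ k, 0 ≤ γ k) (hp : ∀ k, 0 ≤ p k)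
    (A B : Forest → Prop) (h : ∀ T, A T → B T) : TM n γ p A ≤ TM n γ p B := by
  classical
  refine Finset.sum_le_sum fun T _ => ?_
  split_ifs with h1 h2 h2
  · exact le_rfl
  · exact absurd (h T h1) h2
  · exact symsum_nonneg hγ hp _
  · exact le_rfl

lemma TM_or_le (n : ℕ) {γ p : ℕ → ℝ} (hγ : ∀ k, 0 ≤ γ k) (hp : ∀ k, 0 ≤ p k)
    (A B : Forest → Prop) : TM n γ p (fun T => A T ∨ B T) ≤ TM n γ p A + TM n γ p B := by
  classical
  unfold TM
  rw [← Finset.sum_add_distrib]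
  refine Finset.sum_le_sum fun T _ => ?_
  have := symsum_nonneg hγ hp T.dfw
  by_cases hA : A T <;> by_cases hB : B T <;> simp [hA, hB, this]

/-- the first `r` trees -/
def tk : ℕ → Forest → Forest
  | 0, _ => .nil
  | _ + 1, .nil => .nil
  | r + 1, .cons c s => .cons c (tk r s)

lemma tk_len : ∀ (r : ℕ) (F : Forest), r ≤ F.len → (tk r F).len = r
  | 0, _, _ => rfl
  | _ + 1, .nil, h => by simp [Forest.len] at h
  | r + 1, .cons c s, h => by
    simp only [tk, Forest.len] at h ⊢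
    rw [tk_len r s (by omega)]

lemma tk_ht : ∀ (r : ℕ) (F : Forest), (tk r F).ht ≤ F.ht
  | 0, _ => Nat.zero_le _
  | _ + 1, .nil => le_rfl
  | r + 1, .cons c s => by
    simp only [tk, Forest.ht]
    exact max_le_max le_rfl (tk_ht r s)

lemma tk_dfw : ∀ (r : ℕ) (F : Forest), (tk r F).dfw <+: F.dfw
  | 0, _ => List.nil_prefix
  | _ + 1, .nil => List.prefix_rfl
  | r + 1, .cons c s => by
    simp only [tk, Forest.dfw]
    exact (List.prefix_cons_inj _).2 ((List.prefix_append_right_inj _).2 (tk_dfw r s))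

lemma ShortR_mono {y : List ℕ} {r k h : ℕ} (hr : r ≤ k) (H : ShortR y k h) : ShortR y r h := by
  obtain ⟨F, h1, h2, h3⟩ := H
  exact ⟨tk r F, (tk_dfw r F).trans h1, tk_len r F (h2 ▸ hr), (tk_ht r F).trans h3⟩

end OT

open OT PC

/-- OT: upper bound for one type of trees: one marked vertex with weights `γ ≤ Γ`, the other
vertices with the law `p`; outside of a small event the width is of order `β = (n-1) ε` and the
height is between `h1` and `2 h2`. -/
theorem oneType (n K : ℕ) (hn : 2 ≤ n) (hK : n ≤ K) (γ p : ℕ → ℝ) (hγ : ∀ k, 0 ≤ γ k)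
    (hp : ∀ k, 0 ≤ p k) (hp1 : ∑ k ∈ range K, p k = 1) (Γ : ℝ) (hΓ : ∀ k, γ k ≤ Γ)
    (ε σ2 β : ℝ) (hε : ε = ∑ k ∈ range K, (1 - (k : ℝ)) * p k) (hε0 : 0 < ε)
    (hσ : σ2 = ∑ k ∈ range K, ((k : ℝ) - 1) ^ 2 * p k) (hβ : β = ((n : ℝ) - 1) * ε)
    (hβ10 : 10 ≤ β) (h1 h2 : ℕ) (hh2 : 1 ≤ h2) :
    TM n γ p (fun T => ¬ (9 / 10 * β ≤ wid T ∧ (wid T : ℝ) ≤ 4 * β ∧ h1 < hei T ∧
        hei T ≤ 2 * h2)) ≤
      Γ * (500 * ((n : ℝ) * σ2 / β ^ 2) + 4 * β * (1 - hq p K h2) + 1 / (ε * h2) +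
        (hq p K h1) ^ ⌊β / 2⌋₊) := by
  classical
  have hn1 : 1 ≤ n := by omega
  have hΓ0 : 0 ≤ Γ := (hγ 0).trans (hΓ 0)
  have hcast : ((n - 1 : ℕ) : ℝ) = (n : ℝ) - 1 := by
    rw [Nat.cast_sub hn1, Nat.cast_one]
  have hσ0 : 0 ≤ σ2 := by
    rw [hσ]
    exact Finset.sum_nonneg fun k _ => mul_nonneg (sq_nonneg _) (hp k)
  -- the bad event
  set B1 : List ℕ → Prop := fun y => ∃ t ≤ n - 1, β / 10 ≤ |((stp (y.take t) : ℤ) : ℝ) + ε * t|
    with hB1
  have hPB1 : Pr p K (n - 1) B1 ≤ 100 * ((n : ℝ) * σ2 / β ^ 2) := by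
    refine (Pr_kolmogorov p K (n - 1) hp hp1 ε σ2 (β / 10) hε hσ (by linarith)).trans ?_
    rw [hcast]
    have hβ2 : 0 < β ^ 2 := by positivity
    have e1 : ((n : ℝ) - 1) * σ2 / (β / 10) ^ 2 = 100 * (((n : ℝ) - 1) * σ2 / β ^ 2) := by
      field_simp
      ring
    rw [e1]
    have : ((n : ℝ) - 1) * σ2 / β ^ 2 ≤ (n : ℝ) * σ2 / β ^ 2 := by
      apply div_le_div_of_nonneg_right _ hβ2.le
      nlinarith
    linarith
  have hgood : ∀ y : List ℕ, ¬ B1 y → ∀ t ≤ n - 1,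
      |((stp (y.take t) : ℤ) : ℝ) + ε * t| < β / 10 := by
    intro y hy t ht
    by_contra hc
    exact hy ⟨t, ht, not_lt.1 hc⟩
  have hk : ∀ (k : ℕ) (y : List ℕ), y.length = n - 1 → stp y = -(k : ℤ) → ¬ B1 y →
      9 / 10 * β < k ∧ (k : ℝ) < 11 / 10 * β := by
    intro k y hl hs hy
    have := hgood y hy (n - 1) le_rfl
    have hβ' : ε * ((n : ℝ) - 1) = β := by rw [hβ]; ring
    rw [← hl, List.take_length, hs, hl, hcast, hβ', abs_lt] at this
    push_cast at this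
    constructor <;> linarith [this.1, this.2]
  -- width, lower bound
  have p1 : TM n γ p (fun T => (wid T : ℝ) < 9 / 10 * β) ≤ Γ * (100 * ((n : ℝ) * σ2 / β ^ 2)) := by
    have h := TM_wid_lt n K hn1 hK γ p hγ hp ⌈9 / 10 * β⌉₊
    refine (TM_mono n hγ hp _ _ (fun T hT => Nat.lt_ceil.2 hT)).trans (h.trans ?_)
    refine (sum_Pr_le K (n - 1) γ p hγ hp Γ hΓ (fun k _ => k < ⌈9 / 10 * β⌉₊) B1 ?_).trans
      (mul_le_mul_of_nonneg_left hPB1 hΓ0)
    intro k y hl hs hlt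
    by_contra hc
    have := hk k y hl hs hc
    have h2 := Nat.lt_ceil.1 hlt
    linarith
  -- width, upper bound
  have p2 : TM n γ p (fun T => 4 * β < (wid T : ℝ)) ≤ Γ * (100 * ((n : ℝ) * σ2 / β ^ 2)) := by
    have h := TM_wid_gt n K hn1 hK γ p hγ hp ⌊4 * β⌋₊ ⌊β / 5⌋
    refine (TM_mono n hγ hp _ _ (fun T hT => (Nat.floor_lt (by linarith)).2 hT)).trans (h.trans ?_)
    refine (sum_Pr_le K (n - 1) γ p hγ hp Γ hΓ
      (fun k y => Incr y ⌊β / 5⌋ ∨ ((⌊4 * β⌋₊ : ℕ) : ℤ) < k + 1 + 2 * ⌊β / 5⌋) B1 ?_).trans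
      (mul_le_mul_of_nonneg_left hPB1 hΓ0)
    intro k y hl hs hor
    by_contra hc
    obtain ⟨-, hk2⟩ := hk k y hl hs hc
    rcases hor with ⟨s, t, hst, ht, hlt⟩ | hlt
    · have e1 := abs_lt.1 (hgood y hc s (by omega))
      have e2 := abs_lt.1 (hgood y hc t (by omega))
      have e3 : β / 5 < ((stp (y.take t) - stp (y.take s) : ℤ) : ℝ) := by
        have := Int.lt_floor_add_one (β / 5)
        have h4 : ((⌊β / 5⌋ + 1 : ℤ) : ℝ) ≤ ((stp (y.take t) - stp (y.take s) : ℤ) : ℝ) := by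
          exact_mod_cast hlt
        push_cast at h4 ⊢
        linarith
      push_cast at e3
      have e4 : ε * (s : ℝ) ≤ ε * t := by
        apply mul_le_mul_of_nonneg_left _ hε0.le
        exact_mod_cast hst
      linarith [e1.1, e1.2, e2.1, e2.2]
    · have e1 := Nat.lt_floor_add_one (4 * β)
      have e2 := Int.floor_le (β / 5)
      have e3 : ((⌊4 * β⌋₊ : ℕ) : ℝ) < k + 1 + 2 * (⌊β / 5⌋ : ℝ) := by exact_mod_cast hlt
      linarith
  -- height, lower bound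
  have p3 : TM n γ p (fun T => hei T ≤ h1) ≤
      Γ * (100 * ((n : ℝ) * σ2 / β ^ 2) + (hq p K h1) ^ ⌊β / 2⌋₊) := by
    refine (TM_hei_le n K hn1 hK γ p hγ hp h1).trans ?_
    refine (sum_Pr_le K (n - 1) γ p hγ hp Γ hΓ (fun k y => ShortR y k h1)
      (fun y => B1 y ∨ ShortR y ⌊β / 2⌋₊ h1) ?_).trans
      (mul_le_mul_of_nonneg_left ((Pr_or_le p K (n - 1) hp _ _).trans
        (add_le_add hPB1 (Pr_short p K (n - 1) hp hp1 _ h1))) hΓ0)
    intro k y hl hs hsh
    by_cases hc : B1 y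
    · exact Or.inl hc
    · right
      refine ShortR_mono ?_ hsh
      have := (hk k y hl hs hc).1
      apply Nat.floor_le_of_le
      linarith
  have hq1 : 0 ≤ 1 - hq p K h2 := by
    have := (Pr_nonneg p K (n - 1) hp _).trans (Pr_tall p K (n - 1) hp hp1 1 h2)
    rwa [Nat.cast_one, one_mul] at this
  -- height, upper bound
  have p4 : TM n γ p (fun T => h2 + h2 < hei T) ≤
      Γ * (200 * ((n : ℝ) * σ2 / β ^ 2) + 4 * β * (1 - hq p K h2) + 1 / (ε * h2)) := by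
    refine (TM_hei_gt n K hn1 hK γ p hγ hp h2 h2).trans ?_
    have q1 : ∑ k ∈ range K, γ k * Pr p K (n - 1) (fun y => stp y = -(k : ℤ) ∧ TallR y h2) ≤
        Γ * (100 * ((n : ℝ) * σ2 / β ^ 2) + 2 * β * (1 - hq p K h2)) := by
      refine (sum_Pr_le K (n - 1) γ p hγ hp Γ hΓ (fun k y => TallR y h2)
        (fun y => B1 y ∨ ∃ F : Forest, F.dfw <+: y ∧ F.len ≤ ⌊2 * β⌋₊ ∧ h2 < F.ht) ?_).trans
        (mul_le_mul_of_nonneg_left ((Pr_or_le p K (n - 1) hp _ _).trans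
          (add_le_add hPB1 ((Pr_tall p K (n - 1) hp hp1 _ h2).trans
            (mul_le_mul_of_nonneg_right (Nat.floor_le (by linarith)) hq1)))) hΓ0)
      intro k y hl hs hT
      by_cases hc : B1 y
      · exact Or.inl hc
      · right
        obtain ⟨F, hF, hF2⟩ := hT
        refine ⟨F, hF, ?_, hF2⟩
        apply Nat.le_floor
        have e0 : F.vert ≤ n - 1 := by
          rw [← dfw_length, ← hl]
          exact hF.length_le
        have e1 := hgood y hc F.vert e0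
        have e2 : y.take F.vert = F.dfw := by
          rw [← dfw_length]
          exact (List.prefix_iff_eq_take.1 hF).symm
        rw [e2, stp_dfw, abs_lt] at e1
        push_cast at e1
        have e3 : ε * (F.vert : ℝ) ≤ β := by
          have : (F.vert : ℝ) ≤ (n : ℝ) - 1 := by
            rw [← hcast]
            exact_mod_cast e0
          rw [hβ, mul_comm ((n : ℝ) - 1)]
          exact mul_le_mul_of_nonneg_left this hε0.le
        linarith [e1.1]
    have q2 : ∑ k ∈ range K, γ k * Pr p K (n - 1) (fun y => stp y = -(k : ℤ) ∧ h2 < nns y) ≤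
        Γ * (1 / (ε * h2)) := by
      refine (sum_Pr_le K (n - 1) γ p hγ hp Γ hΓ (fun k y => h2 < nns y)
        (fun y => h2 < nns y) (fun k y _ _ h => h)).trans
        (mul_le_mul_of_nonneg_left ?_ hΓ0)
      have hh : (0 : ℝ) < h2 := by exact_mod_cast hh2
      have e1 : Pr p K (n - 1) (fun y => h2 < nns y) ≤
          E p K (n - 1) (fun y => (1 / (h2 : ℝ)) * (nns y : ℝ)) := by
        refine E_mono p K hp _ _ _ fun y _ => ?_
        split_ifs with h
        · rw [one_div, inv_mul_eq_div, le_div_iff₀ hh, one_mul]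
          exact_mod_cast h.le
        · positivity
      rw [E_mul] at e1
      have e2 := E_nns p K (n - 1) hp hp1 ε hε hε0
      calc _ ≤ (1 / (h2 : ℝ)) * E p K (n - 1) (fun y => (nns y : ℝ)) := e1
        _ ≤ (1 / (h2 : ℝ)) * (1 / ε) := mul_le_mul_of_nonneg_left e2 (by positivity)
        _ = 1 / (ε * h2) := by
          field_simp
    linarith
  have hsplit : TM n γ p (fun T => ¬ (9 / 10 * β ≤ wid T ∧ (wid T : ℝ) ≤ 4 * β ∧ h1 < hei T ∧
        hei T ≤ 2 * h2)) ≤ TM n γ p (fun T => (wid T : ℝ) < 9 / 10 * β) +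
        (TM n γ p (fun T => 4 * β < (wid T : ℝ)) + (TM n γ p (fun T => hei T ≤ h1) +
          TM n γ p (fun T => h2 + h2 < hei T))) := by
    refine le_trans (TM_mono n hγ hp _ (fun T => (wid T : ℝ) < 9 / 10 * β ∨
      (4 * β < (wid T : ℝ) ∨ (hei T ≤ h1 ∨ h2 + h2 < hei T))) ?_) ?_
    · intro T hT
      by_contra hc
      push Not at hc
      obtain ⟨c1, c2, c3, c4⟩ := hc
      exact hT ⟨c1, c2, c3, by omega⟩
    · refine (TM_or_le n hγ hp _ _).trans (add_le_add le_rfl ?_)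
      refine (TM_or_le n hγ hp _ _).trans (add_le_add le_rfl ?_)
      exact TM_or_le n hγ hp _ _
  linarith

/-- OL: lower bound for the total weight of one type. -/
theorem oneType_lower (n K : ℕ) (hn : 2 ≤ n) (hK : n ≤ K) (γ p : ℕ → ℝ) (hγ : ∀ k, 0 ≤ γ k)
    (hp : ∀ k, 0 ≤ p k) (hp1 : ∑ k ∈ range K, p k = 1) (Γ0 : ℝ) (hΓ0 : 0 ≤ Γ0)
    (ε σ2 β ρ : ℝ) (hε : ε = ∑ k ∈ range K, (1 - (k : ℝ)) * p k)
    (hσ : σ2 = ∑ k ∈ range K, ((k : ℝ) - 1) ^ 2 * p k) (hβ : β = ((n : ℝ) - 1) * ε)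
    (hρ : 0 < ρ) (hρβ : ρ ≤ β)
    (hγ0 : ∀ k : ℕ, |(k : ℝ) - β| < ρ → k < n → Γ0 ≤ γ k) :
    Γ0 * (1 - n * σ2 / ρ ^ 2) ≤ TM n γ p (fun _ => True) := by
  classical
  have hn1 : 1 ≤ n := by omega
  have hcast : ((n - 1 : ℕ) : ℝ) = (n : ℝ) - 1 := by
    rw [Nat.cast_sub hn1, Nat.cast_one]
  have hσ0 : 0 ≤ σ2 := by
    rw [hσ]
    exact Finset.sum_nonneg fun k _ => mul_nonneg (sq_nonneg _) (hp k)
  rw [TM_univ n K hn1 hK γ p]
  -- the good event
  have hG : 1 - n * σ2 / ρ ^ 2 ≤ Pr p K (n - 1) (fun y => |((stp y : ℤ) : ℝ) + β| < ρ) := by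
    have h1 : Pr p K (n - 1) (fun y => ρ ≤ |((stp y : ℤ) : ℝ) + β|) ≤ n * σ2 / ρ ^ 2 := by
      refine (Pr_mono p K (n - 1) hp _
        (fun y => ∃ t ≤ n - 1, ρ ≤ |((stp (y.take t) : ℤ) : ℝ) + ε * t|) ?_).trans
        ((Pr_kolmogorov p K (n - 1) hp hp1 ε σ2 ρ hε hσ hρ).trans ?_)
      · intro y hl h
        refine ⟨n - 1, le_rfl, ?_⟩
        rw [← hl, List.take_length, hl, hcast]
        rwa [hβ, mul_comm] at h
      · rw [hcast]
        apply div_le_div_of_nonneg_right _ (by positivity)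
        nlinarith
    have h2 : (1 : ℝ) ≤ Pr p K (n - 1) (fun y => |((stp y : ℤ) : ℝ) + β| < ρ) +
        Pr p K (n - 1) (fun y => ρ ≤ |((stp y : ℤ) : ℝ) + β|) := by
      rw [← E_one p K hp1 (n - 1)]
      unfold Pr
      rw [← E_add]
      refine E_mono p K hp _ _ _ fun y _ => ?_
      rcases lt_or_ge (|((stp y : ℤ) : ℝ) + β|) ρ with h | h
      · rw [if_pos h, if_neg (not_le.2 h)]
        norm_num
      · rw [if_neg (not_lt.2 h), if_pos h]
        norm_num
    linarith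
  refine (mul_le_mul_of_nonneg_left hG hΓ0).trans ?_
  have e1 : ∑ k ∈ range K, γ k * Pr p K (n - 1) (fun y => stp y = -(k : ℤ)) =
      E p K (n - 1) (fun y => ∑ k ∈ range K, γ k * (if stp y = -(k : ℤ) then (1 : ℝ) else 0)) := by
    rw [E_sum]
    refine Finset.sum_congr rfl fun k _ => ?_
    rw [E_mul]
    unfold Pr
    congr 1
    refine E_congr p K _ _ _ fun y _ => ?_
    by_cases h : stp y = -(k : ℤ) <;> simp [h]
  rw [e1]
  unfold Pr
  rw [← E_mul]
  refine E_mono p K hp _ _ _ fun y hl => ?_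
  have hnn : ∀ k ∈ range K, 0 ≤ γ k * (if stp y = -(k : ℤ) then (1 : ℝ) else 0) := by
    intro k _
    apply mul_nonneg (hγ k)
    split_ifs
    · exact zero_le_one
    · exact le_rfl
  split_ifs with h
  · change |((stp y : ℤ) : ℝ) + β| < ρ at h
    rw [abs_lt] at h
    have hneg : ((stp y : ℤ) : ℝ) < 0 := by linarith [h.2]
    have hneg' : stp y < 0 := by exact_mod_cast hneg
    have hlow : -(y.length : ℤ) ≤ stp y := by
      clear h hneg hneg' hnn hl
      induction y with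
      | nil => simp [stp]
      | cons a l ih =>
        rw [stp_cons, List.length_cons]
        push_cast
        have : (0 : ℤ) ≤ a := Int.natCast_nonneg a
        linarith
    obtain ⟨k, hk⟩ : ∃ k : ℕ, stp y = -(k : ℤ) := ⟨(-stp y).toNat, by omega⟩
    have hkn : k < n := by omega
    have hkγ : Γ0 ≤ γ k := by
      apply hγ0 k _ hkn
      rw [hk] at h
      push_cast at h
      rw [abs_lt]
      constructor <;> linarith [h.1, h.2]
    refine le_trans ?_ (Finset.single_le_sum hnn (mem_range.2 (hkn.trans_le hK)))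
    rw [if_pos hk, mul_one, mul_one]
    exact hkγ
  · rw [mul_zero]
    exact Finset.sum_nonneg hnn

end HW
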